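import Pool.Agent.LGN.St
import Pool.Agent.LGC.Defs
import Pool.Agent.LGP.WMain

/-!
# LGN / Bl3: finitely many characters of one block, near-linear range

Helper21, for MP_0707f5_ag; the proof is that of helper55 and helper35 in LGC/Blk2.lean.
-/

set_option autoImplicit false

namespace Pool.Agent.LGN

open Matrix Module Helper12.Sc
open SpQ (Hd WStep WReach WExt Good bare bd cj1 IsSpinStructure)
open LGC (It GI hl IReach Kl cls istd St_Fnn St_Wbi)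
open LGP (F ga gb gx x0 MC NS MR stdL stdM dstd wty prj cyc)

/-- the restriction of a mapping class -/
noncomputable def Bl3_rs {g n : ℕ} {N N' : Subgroup (F g n)} (φ : MulAut (F g n))
    (hφ : ∀ y ∈ N', φ y ∈ N) : N' →* N :=
  (φ.toMonoidHom.comp N'.subtype).codRestrict N fun y => hφ y y.2

theorem Bl3_rs_apply {g n : ℕ} {N N' : Subgroup (F g n)} (φ : MulAut (F g n))
    (hφ : ∀ y ∈ N', φ y ∈ N) (y : N') : Bl3_rs φ hφ y = ⟨φ y, hφ y y.2⟩ := rfl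

/-- finitely many characters from finitely many traces -/
theorem Bl3_core (hF : St_Fnn) (hW : St_Wbi) {g n k r : ℕ} {w : SurfaceGroup g → ZMod k}
    (hw : IsSpinStructure k w) (N : Subgroup (F g n)) [N.Normal] [N.FiniteIndex]
    (N' : Subgroup (F g n)) [N'.Normal] [N'.FiniteIndex] (σ : N →* GL (Fin r) ℂ)
    (hfin : {z : ℂ | ∃ y : N, NS (y : F g n) ∧ w (prj g n y) = 0 ∧
      z = (σ y : Matrix (Fin r) (Fin r) ℂ).trace}.Finite)
    (τ : Fin g → ZMod k × ZMod k) (Pr : MulAut (F g n) → Prop)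
    (hdet : ∀ (φ ψ : MulAut (F g n)), φ (x0 g n) = x0 g n → ψ (x0 g n) = x0 g n → Pr φ → Pr ψ →
      ∀ (hφ : ∀ y ∈ N', φ y ∈ N) (hψ : ∀ y ∈ N', ψ y ∈ N),
      (∀ (X : List (It (F g n) k)) (P : List (Hd (F g n) k)), IReach (istd τ) (X ++ hl P) →
        (∀ p ∈ P, Kl N' p) → ∀ x : F g n, x ∈ SpQ.fc P 0 → ∀ y : N',
        ((y : F g n) = x ∨ (y : F g n) = x * x0 g n) →
        (σ (Bl3_rs φ hφ y) : Matrix (Fin r) (Fin r) ℂ).trace =
          (σ (Bl3_rs ψ hψ y) : Matrix (Fin r) (Fin r) ℂ).trace) →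
      ∀ y : N', (σ (Bl3_rs φ hφ y) : Matrix (Fin r) (Fin r) ℂ).trace =
        (σ (Bl3_rs ψ hψ y) : Matrix (Fin r) (Fin r) ℂ).trace) :
    {χ : ↥N' → ℂ | ∃ φ ∈ MC g n, φ (x0 g n) = x0 g n ∧ Pr φ ∧ wty w φ = τ ∧
      ∃ hφ : ∀ y ∈ N', φ y ∈ N,
      χ = fun y : ↥N' => (σ (Bl3_rs φ hφ y) : Matrix (Fin r) (Fin r) ℂ).trace}.Finite := by
  classical
  have : Group.FG (F g n) := by
    rw [Group.fg_iff]
    exact ⟨_, FreeGroup.closure_range_of _, Set.finite_range _⟩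
  have : Group.FG N' := inferInstance
  set T : Set ℂ := {z : ℂ | ∃ y : N, NS (y : F g n) ∧ w (prj g n y) = 0 ∧
      z = (σ y : Matrix (Fin r) (Fin r) ℂ).trace} with hT
  let Λ : Set N' := {y | ∃ (X : List (It (F g n) k)) (P : List (Hd (F g n) k)) (x : F g n),
    IReach (istd τ) (X ++ hl P) ∧ (∀ p ∈ P, Kl N' p) ∧ x ∈ SpQ.fc P 0 ∧
      ((y : F g n) = x ∨ (y : F g n) = x * x0 g n)}
  obtain ⟨s, hs, hs2⟩ := hF N' r Λ
  have hfin2 : (Set.univ.pi fun _ : s => T).Finite := Set.Finite.pi fun _ => hfin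
  refine Set.Finite.of_finite_image (f := fun (χ : N' → ℂ) (x : s) => χ x) (hfin2.subset ?_) ?_
  · rintro _ ⟨_, ⟨φ, hφ, hφ0, -, hτ, hφN, rfl⟩, rfl⟩ y _
    obtain ⟨X, P, x, hR, -, hx, hxy⟩ := hs y y.2
    rw [← hτ] at hR
    have h1 := hW g n k w hw φ hφ hφ0 X P hR x hx
    rcases hxy with hxy | hxy
    · refine ⟨⟨φ (y : N'), hφN _ (y : N').2⟩, ?_, ?_, rfl⟩
      · show NS (φ ((y : N') : F g n))
        rw [hxy]
        exact h1.1.1
      · show w (prj g n (φ ((y : N') : F g n))) = 0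
        rw [hxy]
        exact h1.1.2
    · refine ⟨⟨φ (y : N'), hφN _ (y : N').2⟩, ?_, ?_, rfl⟩
      · show NS (φ ((y : N') : F g n))
        rw [hxy]
        exact h1.2.1
      · show w (prj g n (φ ((y : N') : F g n))) = 0
        rw [hxy]
        exact h1.2.2
  · rintro _ ⟨φ, hφ, hφ0, hPφ, hτ, hφN, rfl⟩ _ ⟨ψ, hψ, hψ0, hPψ, hτ', hψN, rfl⟩ heq
    funext y
    refine hdet φ ψ hφ0 hψ0 hPφ hPψ hφN hψN ?_ y
    have h1 := hs2 (σ.comp (Bl3_rs φ hφN)) (σ.comp (Bl3_rs ψ hψN)) fun z hz =>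
      congrFun heq ⟨z, hz⟩
    intro X P hR hK x hx z hz
    exact h1 z ⟨X, P, x, hR, hK, hx, hz⟩

theorem thm_Bl3 (hP : St_Pr3) (hF : St_Fnn) (hW : St_Wbi) : St_Bl3 := by
  intro g n k r h w hw N _ _ θ hθ hθ0 hhg hN σ hirr hb hfin τ
  set N' : Subgroup (F g n) := N.comap θ.toMonoidHom with hN'
  have hN1 : ∀ i : Fin g, (i : ℕ) < h → ga i ∈ N' ∧ gb i ∈ N' := hN
  have : N'.Normal := by
    rw [hN']
    infer_instance
  have : N'.FiniteIndex := by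
    refine ⟨?_⟩
    rw [hN', Subgroup.index_comap_of_surjective N θ.surjective]
    exact Subgroup.FiniteIndex.index_ne_zero
  have key := Bl3_core hF hW hw N N' σ hfin τ (fun φ => ∀ y, φ y * (θ y)⁻¹ ∈ N) ?_
  · refine key.subset ?_
    rintro χ ⟨φ, h1, h2, h3, h4, hφ, rfl⟩
    exact ⟨φ, h1, h2, h3, h4, hφ, rfl⟩
  intro φ ψ hφ0 hψ0 hPφ hPψ hφ hψ hΛ
  have hrange : ∀ (α : MulAut (F g n)) (hα : ∀ y ∈ N', α y ∈ N),
      (∀ y, α y * (θ y)⁻¹ ∈ N) → (σ.comp (Bl3_rs α hα)).range = σ.range := by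
    intro α hα hPα
    ext z
    constructor
    · rintro ⟨y, rfl⟩
      exact ⟨Bl3_rs α hα y, rfl⟩
    · rintro ⟨y, rfl⟩
      have h6 : α.symm (y : F g n) ∈ N' := by
        show θ (α.symm (y : F g n)) ∈ N
        have h7 := hPα (α.symm (y : F g n))
        rw [MulEquiv.apply_symm_apply] at h7
        have h8 := N.mul_mem (N.inv_mem h7) y.2
        rwa [_root_.mul_inv_rev, inv_inv, mul_assoc, inv_mul_cancel, mul_one] at h8
      refine ⟨⟨α.symm (y : F g n), h6⟩, ?_⟩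
      show σ (Bl3_rs α hα ⟨α.symm (y : F g n), h6⟩) = σ y
      congr 1
      apply Subtype.ext
      show α (α.symm (y : F g n)) = y
      rw [MulEquiv.apply_symm_apply]
  exact hP g n k r h N' hhg hN1 τ (σ.comp (Bl3_rs φ hφ)) (σ.comp (Bl3_rs ψ hψ))
    (by rw [hrange φ hφ hPφ]; exact hirr) (by rw [hrange ψ hψ hPψ]; exact hirr) hb
    (by
      intro X P hR hK x hx hxP
      exact hΛ X P hR hK x hxP ⟨x, hx⟩ (Or.inl rfl))

end Pool.Agent.LGN
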