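import Pool.Agent.LGN.Pr3
import Pool.Agent.LGN.Bl3
import Pool.Agent.LGC.Final

/-!
# LGN / Ap: the application with an arbitrary bound `c r`

Helper21, for MP_0707f5_ag.
-/

set_option autoImplicit false

namespace Pool.Agent.LGN

open Matrix Module Helper12.Sc
open SpQ (Hd WStep WReach WExt Good bare bd cj1 IsSpinStructure)
open LGC (It GI hl IReach Kl cls istd St_Fnn St_Wbi GI_append GI_hl mem_GI hl_append icj Wd tod
  quasi_traces all_Blk2 thm_Ext thm_Fnn thm_Mci thm_Wbi thm_Sim)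
open LGP (F ga gb gx x0 MC NS MR stdL stdM dstd wty prj cyc)

/-- two irreducible representations of `N` of rank `r` with the same traces on the loops of weight
zero of `c r` killed handles have the same character -/
def St_Vk (c : ℕ → ℕ) : Prop := ∀ (Γ : Type) [Group Γ] (k r : ℕ) (N : Subgroup Γ) [N.Normal]
    (ρ₁ ρ₂ : N →* GL (Fin r) ℂ) (X₀ : List (It Γ k)) (B₀ : List (Hd Γ k)),
    0 < r → Pool.Agent.HZ.Irr ρ₁.range → Pool.Agent.HZ.Irr ρ₂.range →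
    (∀ h ∈ B₀, Kl N h) → GI (X₀ ++ hl B₀) = ⊤ → c r ≤ B₀.length →
    (∀ (X' : List (It Γ k)) (P : List (Hd Γ k)), IReach (X₀ ++ hl B₀) (X' ++ hl P) →
      (∀ h ∈ P, Kl N h) → ∀ (x : Γ) (hx : x ∈ N), x ∈ SpQ.fc P 0 →
      (ρ₁ ⟨x, hx⟩ : Matrix (Fin r) (Fin r) ℂ).trace =
        (ρ₂ ⟨x, hx⟩ : Matrix (Fin r) (Fin r) ℂ).trace) →
    ∀ x : N, (ρ₁ x : Matrix (Fin r) (Fin r) ℂ).trace =
      (ρ₂ x : Matrix (Fin r) (Fin r) ℂ).trace

/-- the near-linear range -/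
theorem vk_two (hTwo : St_Two) : St_Vk fun r => 54 * r * (Nat.log 2 r + 1) := by
  intro Γ _ k r N _ ρ₁ ρ₂ X₀ B₀ hr h₁ h₂ hB hG hb hT x
  have : Nontrivial (Fin r → ℂ) := by
    have : Nonempty (Fin r) := ⟨⟨0, hr⟩⟩
    infer_instance
  have key := hTwo ℂ (Fin r → ℂ) Γ k N (toE ρ₁) (toE ρ₂) X₀ B₀ hB hG
    (Al_toE hr ρ₁ h₁) (Al_toE hr ρ₂ h₂)
    (by rw [Module.finrank_fin_fun]; exact hb) (by
      intro X' P hrr hP x hx hxP
      rw [toE_trace, toE_trace]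
      exact hT X' P hrr hP x hx hxP) x
  rw [toE_trace, toE_trace] at key
  exact key

private theorem Ap_GI {g n k : ℕ} (τ : Fin g → ZMod k × ZMod k) :
    GI (istd (n := n) τ) = ⊤ := by
  rw [eq_top_iff, ← LGP.closure_dstd (n := n) τ]
  unfold istd
  rw [GI_append, GI_hl]
  refine sup_le_sup_left ?_ _
  rw [Subgroup.closure_le]
  intro y hy
  exact mem_GI (i := Sum.inr y) (List.mem_map.2 ⟨y, hy, rfl⟩) rfl

/-- two representations of a normal subgroup of the fundamental group -/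
theorem ap_Pr {c : ℕ → ℕ} (hV : St_Vk c) (g n k r h : ℕ) (N : Subgroup (F g n)) [N.Normal]
    (hh : h ≤ g) (hkill : ∀ i : Fin g, (i : ℕ) < h → ga i ∈ N ∧ gb i ∈ N)
    (τ : Fin g → ZMod k × ZMod k) (ρ₁ ρ₂ : N →* GL (Fin r) ℂ)
    (h₁ : Pool.Agent.HZ.Irr ρ₁.range) (h₂ : Pool.Agent.HZ.Irr ρ₂.range) (hb : c r ≤ h)
    (hT : ∀ (X : List (It (F g n) k)) (P : List (Hd (F g n) k)), IReach (istd τ) (X ++ hl P) →
      (∀ p ∈ P, Kl N p) → ∀ (x : F g n) (hx : x ∈ N), x ∈ SpQ.fc P 0 →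
      (ρ₁ ⟨x, hx⟩ : Matrix (Fin r) (Fin r) ℂ).trace =
        (ρ₂ ⟨x, hx⟩ : Matrix (Fin r) (Fin r) ℂ).trace) (x : N) :
    (ρ₁ x : Matrix (Fin r) (Fin r) ℂ).trace = (ρ₂ x : Matrix (Fin r) (Fin r) ℂ).trace := by
  rcases Nat.eq_zero_or_pos r with hr | hr
  · subst hr
    rw [Matrix.trace, Matrix.trace, Finset.univ_eq_empty, Finset.sum_empty, Finset.sum_empty]
  have hlen : (dstd (n := n) τ).length = g := by simp [dstd]
  obtain ⟨B₀, hB₀⟩ : ∃ B, B = (dstd (n := n) τ).take h := ⟨_, rfl⟩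
  obtain ⟨C₀, hC₀⟩ : ∃ C, C = (dstd (n := n) τ).drop h := ⟨_, rfl⟩
  have hBC : dstd (n := n) τ = B₀ ++ C₀ := by
    rw [hB₀, hC₀, List.take_append_drop]
  have hBlen : B₀.length = h := by
    rw [hB₀, List.length_take, hlen]
    omega
  have hBK : ∀ p ∈ B₀, Kl N p := by
    intro p hp
    rw [hB₀, List.mem_take_iff_getElem] at hp
    obtain ⟨j, hj, rfl⟩ := hp
    have hj' : j < g := by omega
    have h1 := hkill ⟨j, hj'⟩ (by simp only; omega)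
    unfold Kl dstd
    simpa using h1
  have hist : istd (n := n) τ = hl B₀ ++ (hl C₀ ++ (stdM g n).map Sum.inr) := by
    unfold istd
    rw [hBC, hl_append, List.append_assoc]
  obtain ⟨u, -, hu⟩ := IReach.move_block (hl B₀) (hl C₀ ++ (stdM g n).map Sum.inr)
  rw [← hist] at hu
  have hGI : GI (List.map (icj u) (hl C₀ ++ (stdM g n).map Sum.inr) ++ hl B₀) = ⊤ := by
    rw [hu.GI_eq]
    exact Ap_GI τ
  exact hV (F g n) k r N ρ₁ ρ₂ _ B₀ hr h₁ h₂ hBK hGI (by rw [hBlen]; exact hb)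
    (fun X' P hrr hP x hx hxP => hT X' P (hu.trans hrr) hP x hx hxP) x

/-- finitely many characters of one block -/
theorem ap_Bl {c : ℕ → ℕ} (hV : St_Vk c) (hF : St_Fnn) (hW : St_Wbi) (g n k r h : ℕ)
    (w : SurfaceGroup g → ZMod k) (hw : IsSpinStructure k w) (N : Subgroup (F g n)) [N.Normal]
    [N.FiniteIndex] (θ : MulAut (F g n)) (_hθ0 : θ (x0 g n) = x0 g n)
    (hhg : h ≤ g) (hN : ∀ i : Fin g, (i : ℕ) < h → θ (ga i) ∈ N ∧ θ (gb i) ∈ N)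
    (σ : N →* GL (Fin r) ℂ) (hirr : Pool.Agent.HZ.Irr σ.range) (hb : c r ≤ h)
    (hfin : {z : ℂ | ∃ y : N, NS (y : F g n) ∧ w (prj g n y) = 0 ∧
      z = (σ y : Matrix (Fin r) (Fin r) ℂ).trace}.Finite)
    (τ : Fin g → ZMod k × ZMod k) :
    {χ : ↥(N.comap θ.toMonoidHom) → ℂ | ∃ φ ∈ MC g n,
      φ (x0 g n) = x0 g n ∧ (∀ y, φ y * (θ y)⁻¹ ∈ N) ∧ wty w φ = τ ∧
      ∃ hφ : ∀ y ∈ N.comap θ.toMonoidHom, φ y ∈ N,
      χ = fun y : ↥(N.comap θ.toMonoidHom) =>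
        (σ ⟨φ y, hφ y y.2⟩ : Matrix (Fin r) (Fin r) ℂ).trace}.Finite := by
  set N' : Subgroup (F g n) := N.comap θ.toMonoidHom with hN'
  have hN1 : ∀ i : Fin g, (i : ℕ) < h → ga i ∈ N' ∧ gb i ∈ N' := hN
  have : N'.Normal := by
    rw [hN']
    infer_instance
  have : N'.FiniteIndex := by
    refine ⟨?_⟩
    rw [hN', Subgroup.index_comap_of_surjective N θ.surjective]
    exact Subgroup.FiniteIndex.index_ne_zero
  have key := Bl3_core hF hW hw N N' σ hfin τ (fun φ => ∀ y, φ y * (θ y)⁻¹ ∈ N) ?_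
  · refine key.subset ?_
    rintro χ ⟨φ, h1, h2, h3, h4, hφ, rfl⟩
    exact ⟨φ, h1, h2, h3, h4, hφ, rfl⟩
  intro φ ψ hφ0 hψ0 hPφ hPψ hφ hψ hΛ
  have hrange : ∀ (α : MulAut (F g n)) (hα : ∀ y ∈ N', α y ∈ N),
      (∀ y, α y * (θ y)⁻¹ ∈ N) → (σ.comp (Bl3_rs α hα)).range = σ.range := by
    intro α hα hPα
    ext z
    constructor
    · rintro ⟨y, rfl⟩
      exact ⟨Bl3_rs α hα y, rfl⟩
    · rintro ⟨y, rfl⟩
      have h6 : α.symm (y : F g n) ∈ N' := by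
        show θ (α.symm (y : F g n)) ∈ N
        have h7 := hPα (α.symm (y : F g n))
        rw [MulEquiv.apply_symm_apply] at h7
        have h8 := N.mul_mem (N.inv_mem h7) y.2
        rwa [_root_.mul_inv_rev, inv_inv, mul_assoc, inv_mul_cancel, mul_one] at h8
      refine ⟨⟨α.symm (y : F g n), h6⟩, ?_⟩
      show σ (Bl3_rs α hα ⟨α.symm (y : F g n), h6⟩) = σ y
      congr 1
      apply Subtype.ext
      show α (α.symm (y : F g n)) = y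
      rw [MulEquiv.apply_symm_apply]
  exact ap_Pr hV g n k r h N' hhg hN1 τ (σ.comp (Bl3_rs φ hφ)) (σ.comp (Bl3_rs ψ hψ))
    (by rw [hrange φ hφ hPφ]; exact hirr) (by rw [hrange ψ hψ hPψ]; exact hirr) hb
    (by
      intro X P hR hK x hx hxP
      exact hΛ X P hR hK x hxP ⟨x, hx⟩ (Or.inl rfl))

/-- the condition on a representation of `N` -/
def CndA (c : ℕ → ℕ) {g n : ℕ} (N : Subgroup (F g n)) (h r : ℕ) (σ : N →* GL (Fin r) ℂ) : Prop :=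
  LGC.Cnd2 N h r σ ∨ (Pool.Agent.HZ.Irr σ.range ∧ c r ≤ h)

/-- **Theorem D** -/
theorem thmDA {c : ℕ → ℕ} (hV : St_Vk c) (g n k R m h : ℕ) (w : SurfaceGroup g → ZMod k) (hk : 0 < k)
    (hw : IsSpinStructure k w) (N : Subgroup (F g n)) [N.Normal] [N.FiniteIndex] (hh : h ≤ g)
    (hN : ∃ θ ∈ MC g n, ∀ i : Fin g, (i : ℕ) < h → θ (ga i) ∈ N ∧ θ (gb i) ∈ N)
    (ρ : F g n →* GL (Fin R) ℂ) (r : Fin m → ℕ) (σ : ∀ j, N →* GL (Fin (r j)) ℂ)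
    (hσ : ∀ j, CndA c N h (r j) (σ j))
    (h1 : ∃ d, ∀ (y : N) (z : ℂ), (ρ (y : F g n) : Matrix (Fin R) (Fin R) ℂ).charpoly.IsRoot z →
      z ∈ Wd d {u | ∃ j, (σ j y : Matrix (Fin (r j)) (Fin (r j)) ℂ).charpoly.IsRoot u})
    (h2 : ((∀ y : N, NS (y : F g n) → w (prj g n y) = 0 → Pool.Agent.HZ.Quasi (ρ (y : F g n))) ∧
        ∃ d, ∀ (y : N) (j : Fin m) (z : ℂ),
          (σ j y : Matrix (Fin (r j)) (Fin (r j)) ℂ).charpoly.IsRoot z →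
          z ∈ Wd d {u | (ρ (y : F g n) : Matrix (Fin R) (Fin R) ℂ).charpoly.IsRoot u}) ∨
      ∀ j, {z : ℂ | ∃ y : N, NS (y : F g n) ∧ w (prj g n y) = 0 ∧
        z = (σ j y : Matrix (Fin (r j)) (Fin (r j)) ℂ).trace}.Finite) :
    {χ : F g n → ℂ | ∃ φ ∈ MC g n,
      χ = fun y => (ρ (φ y) : Matrix (Fin R) (Fin R) ℂ).trace}.Finite := by
  have hfin : ∀ j, {z : ℂ | ∃ y : N, NS (y : F g n) ∧ w (prj g n y) = 0 ∧
      z = (σ j y : Matrix (Fin (r j)) (Fin (r j)) ℂ).trace}.Finite := by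
    rcases h2 with ⟨h2, d, h3⟩ | h2
    · intro j
      refine (quasi_traces N ρ (σ j) {y | NS (y : F g n) ∧ w (prj g n y) = 0}
        (fun y z hz => h3 y j z hz) (fun y hy => h2 y hy.1 hy.2)).subset ?_
      rintro z ⟨y, hy1, hy2, rfl⟩
      exact ⟨y, ⟨hy1, hy2⟩, rfl⟩
    · exact h2
  obtain ⟨d, h1⟩ := h1
  refine tod (thm_Ext thm_Fnn) thm_Fnn thm_Mci g n k R m h d w hk N hN ρ r σ h1
    fun θ hθ hθ0 hθN j τ => ?_
  rcases hσ j with hσ | ⟨hi, hb⟩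
  · exact all_Blk2 g n k (r j) h w hw N θ hθ hθ0 hh hθN (σ j) hσ (hfin j) τ
  · exact ap_Bl hV thm_Fnn (thm_Wbi thm_Sim) g n k (r j) h w hw N θ hθ0 hh hθN (σ j) hi hb
      (hfin j) τ

end Pool.Agent.LGN
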