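import Pool.Agent.LGN.Ap
import Pool.Agent.EKL.Vkk
import Pool.Agent.LGC.All
import Pool.Agent.LGC.Gek

/-!
# LGN / All: the linear range

Helper21, for MP_0707f5_ag.
-/

set_option autoImplicit false

namespace Pool.Agent.LGN

open LGC (thm_All thm_Gek thm_Gnk thm_Cnk thm_Pas thm_Slk thm_Lif thm_Map)

/-- two irreducible representations of `N` of rank `r` with the same traces on the loops of weight
zero of `36 r` killed handles have the same character -/
theorem all_Vk : St_Vk fun r => 36 * r :=
  EKL.vkk thm_All (thm_Gek (thm_Gnk (thm_Cnk thm_Pas) thm_Slk thm_Lif) thm_Map)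

end Pool.Agent.LGN
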