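import Pool.Agent.LGN.Nof

/-!
# A subgroup which contains all spare handles contains everything

Helper33, for MP_0707f5_ag.  `St_Alx`.
-/

set_option autoImplicit false

namespace Pool.Agent.LGN

open Module
open SpQ (Hd Good WReach)
open LGC (It GI hl Kl IReach cls Kl_list Kl_iff GI_append_hl)

/-- **ALX**. -/
theorem thm_Alx (hA : LGC.St_All) (hG : LGC.St_Gek) (hN : St_Nof) : St_Alx := by
  intro K V Γ _ _ _ _ _ _ _ k N _ R₁ R₂ X B H hgood hkl hr1 hr2 hF hlen hT
  have hd : 1 ≤ finrank K V := Module.finrank_pos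
  have hBne : B ≠ [] := by
    intro h0
    rw [h0, List.length_nil] at hlen
    omega
  -- the algebras of the components
  have hfull : ∀ H' : Subgroup N, Al2 R₁ R₂ H' = Al2 R₁ R₂ ⊤ → Al R₁ H' = ⊤ ∧ Al R₂ H' = ⊤ := by
    intro H' h
    constructor
    · have h2 := congrArg (fun A => A.map (AlgHom.fst K (Module.End K V) (Module.End K V))) h
      simp only [Nof_fst] at h2
      rw [h2, hr1]
    · have h2 := congrArg (fun A => A.map (AlgHom.snd K (Module.End K V) (Module.End K V))) h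
      simp only [Nof_snd] at h2
      rw [h2, hr2]
  have key : N ⊓ GI (X ++ hl B) ≤ H.map N.subtype := by
    refine hG Γ k N X B hBne hgood hkl _ ?_
    intro X'' B'' hr' hcl' hlen' hg' hk'
    have hEN : SpQ.E B'' ≤ N := Kl_list.1 hk'
    have hGI : GI (X'' ++ hl B'') = GI (X ++ hl B) := hr'.GI_eq
    refine hA Γ k (fun G => Al2 R₁ R₂ ((GI X'' ⊔ G).subgroupOf N) = Al2 R₁ R₂ ⊤) B'' _ hg' ?_ ?_
    · intro B₃ hw3 hg3
      have hE3 : SpQ.E B₃ = SpQ.E B'' := hw3.E_eq
      have hk3 : ∀ h ∈ B₃, Kl N h := Kl_list.2 (by rw [hE3]; exact hEN)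
      have hGI3 : GI (X'' ++ hl B₃) = GI (X ++ hl B) := by
        rw [GI_append_hl, hE3, ← GI_append_hl, hGI]
      have hlen3 : B₃.length = B''.length := hw3.length_eq
      have hF3 : Al2 R₁ R₂ ((GI (X'' ++ hl B₃)).subgroupOf N) = Al2 R₁ R₂ ⊤ := by
        rw [hGI3]
        exact hF
      obtain ⟨s, p, t, h1, h2⟩ := hN K V Γ k N R₁ R₂ X'' B₃ hk3 (hfull _ hF3).1 (hfull _ hF3).2
        (by
          rw [hlen3, hlen']
          exact hlen)
      refine ⟨s, p, t, h1, ?_⟩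
      show Al2 R₁ R₂ ((GI X'' ⊔ SpQ.E (s ++ t)).subgroupOf N) = Al2 R₁ R₂ ⊤
      rw [← GI_append_hl, h2, hF3]
    · intro B₃ p hw3 hg3 hfull3
      have hfull' : Al2 R₁ R₂ ((GI X'' ⊔ SpQ.E B₃).subgroupOf N) = Al2 R₁ R₂ ⊤ := hfull3
      have hE3 : SpQ.E (B₃ ++ [p]) = SpQ.E B'' := hw3.E_eq
      have hk3 : ∀ h ∈ B₃ ++ [p], Kl N h := Kl_list.2 (by rw [hE3]; exact hEN)
      have hlen3 : (B₃ ++ [p]).length = B''.length := hw3.length_eq
      have h3 := hT X'' B₃ p
        (hr'.trans (by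
          have h4 := IReach.of_wreach' hw3 X'' []
          rwa [List.append_nil, List.append_nil] at h4)) hcl'
        (by
          rw [List.length_append, List.length_singleton] at hlen3
          rw [hlen3, hlen']) hg3 hk3 (by rw [GI_append_hl]; exact hfull')
      have hkp : Kl N p := hk3 p (by simp)
      have hEp : SpQ.E [p] ≤ N := Kl_iff.1 hkp
      intro x hx
      exact ⟨⟨x, hEp hx⟩, h3 (Subgroup.mem_subgroupOf.2 hx), rfl⟩
  intro z hz
  obtain ⟨y, hy, hyz⟩ := key (Subgroup.mem_inf.2 ⟨z.2, Subgroup.mem_subgroupOf.1 hz⟩)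
  have h3 : y = z := Subtype.ext hyz
  rwa [← h3]

end Pool.Agent.LGN
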