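import Pool.Agent.LGN.St

/-!
# Near-linear range: ARI, the number of steps
-/

set_option autoImplicit false

namespace Pool.Agent.LGN

private theorem Ari_mono (w : ℕ → ℕ) (hm : ∀ i, w i ≤ w (i + 1)) (a b : ℕ) (h : a ≤ b) : w a ≤ w b :=
  monotone_nat_of_le_succ hm h

private theorem Ari_round (r b L : ℕ) (w : ℕ → ℕ) (hL : r < 2 ^ (L + 1)) (h0 : b + 1 ≤ w 0)
    (hm : ∀ i, w i ≤ w (i + 1))
    (hs : ∀ i < 9 * L, w i < b + r → ∀ δ : ℕ, b + δ ≤ w i → w i + δ ≤ b + r → 6 * w i + δ ≤ 6 * w (i + 1)) :
    b + r ≤ w (9 * L) := by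
  by_contra hcon
  have hlt : ∀ i ≤ 9 * L, w i < b + r := fun i hi =>
    lt_of_le_of_lt (Ari_mono w hm i (9 * L) hi) (by omega)
  have hb : ∀ i, b + 1 ≤ w i := fun i => le_trans h0 (Ari_mono w hm 0 i (Nat.zero_le _))
  -- first phase
  have h1 : r + 2 * b ≤ 2 * w (5 * L) := by
    by_contra hc
    have hlow : ∀ i ≤ 5 * L, 2 * w i < r + 2 * b := fun i hi => by
      have := Ari_mono w hm i (5 * L) hi
      omega
    have hgr : ∀ i < 5 * L, 7 * w i ≤ 6 * w (i + 1) + b := fun i hi => by
      have e1 := hlow i (by omega)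
      have e2 := hb i
      have := hs i (by omega) (hlt i (by omega)) (w i - b) (by omega) (by omega)
      omega
    have hp : ∀ m ≤ L, b + 2 ^ m ≤ w (5 * m) := by
      intro m
      induction m with
      | zero =>
        intro _
        simpa using h0
      | succ m ih =>
        intro hmL
        have e := ih (by omega)
        have g0 := hgr (5 * m) (by omega)
        have g1 := hgr (5 * m + 1) (by omega)
        have g2 := hgr (5 * m + 2) (by omega)
        have g3 := hgr (5 * m + 3) (by omega)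
        have g4 := hgr (5 * m + 4) (by omega)
        have e5 : 5 * (m + 1) = 5 * m + 4 + 1 := by ring
        rw [e5, pow_succ]
        simp only [add_assoc, Nat.reduceAdd] at g0 g1 g2 g3 g4 ⊢
        omega
    have := hp L le_rfl
    rw [pow_succ] at hL
    omega
  -- second phase
  have hhigh : ∀ i, 5 * L ≤ i → r + 2 * b ≤ 2 * w i := fun i hi => by
    have := Ari_mono w hm (5 * L) i hi
    omega
  have hgr2 : ∀ i, 5 * L ≤ i → i < 9 * L → 5 * w i + b + r ≤ 6 * w (i + 1) := fun i hi hi2 => by
    have e1 := hhigh i hi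
    have e2 := hlt i (by omega)
    have := hs i hi2 e2 (b + r - w i) (by omega) (by omega)
    omega
  have hp2 : ∀ m ≤ L, 2 ^ m * (b + r - w (5 * L + 4 * m)) ≤ b + r - w (5 * L) := by
    intro m
    induction m with
    | zero =>
      intro _
      simp
    | succ m ih =>
      intro hmL
      have e := ih (by omega)
      have g0 := hgr2 (5 * L + 4 * m) (by omega) (by omega)
      have g1 := hgr2 (5 * L + 4 * m + 1) (by omega) (by omega)
      have g2 := hgr2 (5 * L + 4 * m + 2) (by omega) (by omega)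
      have g3 := hgr2 (5 * L + 4 * m + 3) (by omega) (by omega)
      have e5 : 5 * L + 4 * (m + 1) = 5 * L + 4 * m + 3 + 1 := by ring
      have hle : 2 * (b + r - w (5 * L + 4 * (m + 1))) ≤ b + r - w (5 * L + 4 * m) := by
        rw [e5]
        have q1 : 5 * L + 4 * m + 1 + 1 = 5 * L + 4 * m + 2 := rfl
        have q2 : 5 * L + 4 * m + 2 + 1 = 5 * L + 4 * m + 3 := rfl
        rw [q1] at g1
        rw [q2] at g2
        omega
      calc 2 ^ (m + 1) * (b + r - w (5 * L + 4 * (m + 1)))
          = 2 ^ m * (2 * (b + r - w (5 * L + 4 * (m + 1)))) := by rw [pow_succ]; ring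
        _ ≤ 2 ^ m * (b + r - w (5 * L + 4 * m)) := Nat.mul_le_mul_left _ hle
        _ ≤ b + r - w (5 * L) := e
  have h2 := hp2 L le_rfl
  have h3 : 5 * L + 4 * L = 9 * L := by ring
  rw [h3] at h2
  have h4 : b + r - w (5 * L) < 2 ^ L := by
    rw [pow_succ] at hL
    omega
  have h5 : 1 ≤ b + r - w (9 * L) := by
    have := hlt (9 * L) le_rfl
    omega
  have h6 : 2 ^ L * 1 ≤ 2 ^ L * (b + r - w (9 * L)) := Nat.mul_le_mul_left _ h5
  omega

theorem thm_Ari : St_Ari := by
  intro r y u hr hu0 hm hs
  obtain ⟨L, hLdef⟩ : ∃ L, L = Nat.log 2 r := ⟨_, rfl⟩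
  rw [← hLdef] at hs ⊢
  have hL : r < 2 ^ (L + 1) := by
    rw [hLdef]
    exact Nat.lt_pow_succ_log_self (by norm_num) r
  have key : ∀ j ≤ y, r * j ≤ u (j * (9 * L + 1)) := by
    intro j
    induction j with
    | zero =>
      intro _
      simp
    | succ j ih =>
      intro hj
      have e := ih (by omega)
      by_contra hcon
      have hyj : (j + 1) * (9 * L + 1) ≤ y * (9 * L + 1) := Nat.mul_le_mul_right _ hj
      have hry : r * (j + 1) ≤ r * y := Nat.mul_le_mul_left _ hj
      have hexp : (j + 1) * (9 * L + 1) = j * (9 * L + 1) + 1 + 9 * L := by ring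
      have hrj : r * (j + 1) = r * j + r := by ring
      have hlt : ∀ i ≤ (j + 1) * (9 * L + 1), u i < r * (j + 1) := fun i hi =>
        lt_of_le_of_lt (Ari_mono u hm i _ hi) (by omega)
      have h0 : r * j + 1 ≤ u (j * (9 * L + 1) + 1) := by
        have h1 := (hs (j * (9 * L + 1)) (by omega) (lt_of_lt_of_le (hlt _ (by omega)) hry)).1
        omega
      have hfin := Ari_round r (r * j) L (fun i => u (j * (9 * L + 1) + 1 + i)) hL h0
        (fun i => hm (j * (9 * L + 1) + 1 + i)) (fun i hi hlt' δ hd1 hd2 => by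
          refine (hs (j * (9 * L + 1) + 1 + i) (by omega)
            (lt_of_lt_of_le (hlt _ (by omega)) hry)).2 δ (fun j' => ?_)
          rcases Nat.lt_or_ge j j' with h | h
          · right
            have h7 : r * (j + 1) ≤ r * j' := Nat.mul_le_mul_left _ h
            exact le_trans hd2 (by omega)
          · left
            have h7 : r * j' ≤ r * j := Nat.mul_le_mul_left _ h
            exact le_trans (by omega) hd1)
      apply hcon
      rw [hexp, hrj]
      exact hfin
  exact key y le_rfl

end Pool.Agent.LGN
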