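import Pool.Agent.LGC.Csp
import Pool.Agent.LGC.Up2
import Pool.Agent.LGP.WMain

/-!
# Near-linear range: definitions

Helper21, for MP_0707f5_ag.
-/

set_option autoImplicit false

namespace Pool.Agent.LGN

open Module
open SpQ (Hd WStep WReach WExt Good bd cj1)
open LGC (It GI hl IReach Kl cls)

section
variable {K V Y G : Type} [Field K] [AddCommGroup V] [Module K V] [AddCommGroup Y] [Module K Y]
  [Group G] {k : ℕ}

/-- the algebra generated by the images of the elements of `H` -/
def Al (R : G →* Module.End K V) (H : Subgroup G) : Subalgebra K (Module.End K V) :=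
  Algebra.adjoin K (R '' (H : Set G))

/-- the algebra generated by the pairs `(R₁ x, R₂ x)`, `x ∈ H` -/
def Al2 (R₁ R₂ : G →* Module.End K V) (H : Subgroup G) :
    Subalgebra K (Module.End K V × Module.End K V) :=
  Algebra.adjoin K ((fun x => (R₁ x, R₂ x)) '' (H : Set G))

/-- the letters of the blocks `T` of `B` whose complement contains a good block `B₁` with
`Al R (E B₁) = ⊤` -/
def SL (R : G →* Module.End K V) (B : List (Hd G k)) : Set G :=
  {x | ∃ J B₁ T : List (Hd G k), WReach B (J ++ B₁ ++ T) ∧ (∀ h ∈ B₁, Good h) ∧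
    Al R (SpQ.E B₁) = ⊤ ∧ x ∈ SpQ.fc T (-1)}

/-- the span of the images of the elements of a set, and `1` -/
def Fsp (R : G →* Module.End K V) (A : Set G) : Submodule K (Module.End K V) :=
  Submodule.span K (insert 1 (R '' A))

/-- composition with `f` -/
def pc (Y : Type) [AddCommGroup Y] [Module K Y] (f : Module.End K V) :
    (Y →ₗ[K] V) →ₗ[K] (Y →ₗ[K] V) where
  toFun g := f ∘ₗ g
  map_add' a b := by
    ext y
    simp
  map_smul' c a := by
    ext y
    simp

/-- the span of `w` and its images under the letters of `P` -/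
def Spw (R : G →* Module.End K V) (w : Y →ₗ[K] V) (P : List (Hd G k)) :
    Submodule K (Y →ₗ[K] V) :=
  Submodule.span K (insert w ((fun x => pc Y (R x) w) '' SpQ.fc P (-1)))

end

/-- twice the distance of two subspaces in the lattice: `dim (W + W') - dim (W ∩ W')` -/
noncomputable def dst {K M : Type} [Field K] [AddCommGroup M] [Module K M] (W W' : Submodule K M) :
    ℕ := finrank K ↥(W ⊔ W') - finrank K ↥(W ⊓ W')

end Pool.Agent.LGN
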