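import Pool.Agent.LGN.St
import Pool.Agent.LGC.Final

/-!
# Near-linear range: Theorem D

Helper21, for MP_0707f5_ag.
-/

set_option autoImplicit false

namespace Pool.Agent.LGN

open Matrix Module Helper12.Sc
open SpQ (IsSpinStructure)
open LGP (F ga gb gx x0 MC NS prj)
open LGC (Wd tod quasi_traces all_Blk2 thm_Ext thm_Fnn thm_Mci)

/-- the condition on a representation of `N` -/
def Cnd3 {g n : ℕ} (N : Subgroup (F g n)) (h r : ℕ) (σ : N →* GL (Fin r) ℂ) : Prop :=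
  LGC.Cnd2 N h r σ ∨ (Pool.Agent.HZ.Irr σ.range ∧ 54 * r * (Nat.log 2 r + 1) ≤ h)

/-- **Theorem D** in the near-linear range -/
theorem thmD3 (hB : St_Bl3) (g n k R m h : ℕ) (w : SurfaceGroup g → ZMod k) (hk : 0 < k)
    (hw : IsSpinStructure k w) (N : Subgroup (F g n)) [N.Normal] [N.FiniteIndex] (hh : h ≤ g)
    (hN : ∃ θ ∈ MC g n, ∀ i : Fin g, (i : ℕ) < h → θ (ga i) ∈ N ∧ θ (gb i) ∈ N)
    (ρ : F g n →* GL (Fin R) ℂ) (r : Fin m → ℕ) (σ : ∀ j, N →* GL (Fin (r j)) ℂ)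
    (hσ : ∀ j, Cnd3 N h (r j) (σ j))
    (h1 : ∃ d, ∀ (y : N) (z : ℂ), (ρ (y : F g n) : Matrix (Fin R) (Fin R) ℂ).charpoly.IsRoot z →
      z ∈ Wd d {u | ∃ j, (σ j y : Matrix (Fin (r j)) (Fin (r j)) ℂ).charpoly.IsRoot u})
    (h2 : ((∀ y : N, NS (y : F g n) → w (prj g n y) = 0 → Pool.Agent.HZ.Quasi (ρ (y : F g n))) ∧
        ∃ d, ∀ (y : N) (j : Fin m) (z : ℂ),
          (σ j y : Matrix (Fin (r j)) (Fin (r j)) ℂ).charpoly.IsRoot z →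
          z ∈ Wd d {u | (ρ (y : F g n) : Matrix (Fin R) (Fin R) ℂ).charpoly.IsRoot u}) ∨
      ∀ j, {z : ℂ | ∃ y : N, NS (y : F g n) ∧ w (prj g n y) = 0 ∧
        z = (σ j y : Matrix (Fin (r j)) (Fin (r j)) ℂ).trace}.Finite) :
    {χ : F g n → ℂ | ∃ φ ∈ MC g n,
      χ = fun y => (ρ (φ y) : Matrix (Fin R) (Fin R) ℂ).trace}.Finite := by
  have hfin : ∀ j, {z : ℂ | ∃ y : N, NS (y : F g n) ∧ w (prj g n y) = 0 ∧
      z = (σ j y : Matrix (Fin (r j)) (Fin (r j)) ℂ).trace}.Finite := by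
    rcases h2 with ⟨h2, d, h3⟩ | h2
    · intro j
      refine (quasi_traces N ρ (σ j) {y | NS (y : F g n) ∧ w (prj g n y) = 0}
        (fun y z hz => h3 y j z hz) (fun y hy => h2 y hy.1 hy.2)).subset ?_
      rintro z ⟨y, hy1, hy2, rfl⟩
      exact ⟨y, ⟨hy1, hy2⟩, rfl⟩
    · exact h2
  obtain ⟨d, h1⟩ := h1
  refine tod (thm_Ext thm_Fnn) thm_Fnn thm_Mci g n k R m h d w hk N hN ρ r σ h1
    fun θ hθ hθ0 hθN j τ => ?_
  rcases hσ j with hσ | ⟨hi, hb⟩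
  · exact all_Blk2 g n k (r j) h w hw N θ hθ hθ0 hh hθN (σ j) hσ (hfin j) τ
  · exact hB g n k (r j) h w hw N θ hθ hθ0 hh hθN (σ j) hi hb (hfin j) τ

end Pool.Agent.LGN
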