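import Pool.Agent.LGN.Nof
import Pool.Agent.EKL.Grf

/-!
# A full block can be split off

Helper33, for MP_0707f5_ag.  `St_Gr3`.
-/

set_option autoImplicit false

namespace Pool.Agent.LGN

open Module
open SpQ (Hd Good WReach cj1)
open LGC (It GI hl Kl IReach cls icj hl_append hl_cons hl_nil)

/-- a spare handle is added to the block -/
private theorem Gr3_add {K V Γ : Type} [Field K] [IsAlgClosed K] [AddCommGroup V] [Module K V]
    [FiniteDimensional K V] [Nontrivial V] [Group Γ] {k : ℕ} (N : Subgroup Γ) [N.Normal]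
    (R₁ R₂ : N →* Module.End K V) (hr1 : Al R₁ ⊤ = ⊤) (hr2 : Al R₂ ⊤ = ⊤)
    (X' : List (It Γ k)) (B' P : List (Hd Γ k)) (hg : ∀ h ∈ B' ++ P, Good h)
    (hk : ∀ h ∈ B' ++ P, Kl N h)
    (hF : Al2 R₁ R₂ ((GI (X' ++ hl B')).subgroupOf N) = Al2 R₁ R₂ ⊤)
    (hlen : 8 * finrank K V ≤ B'.length) :
    ∃ (B₁ : List (Hd Γ k)) (p : Hd Γ k), IReach (X' ++ hl (B' ++ P)) (X' ++ hl (B₁ ++ (p :: P))) ∧
      B₁.length + 1 = B'.length ∧ (∀ h ∈ B₁ ++ (p :: P), Good h) ∧ (∀ h ∈ B₁ ++ (p :: P), Kl N h) ∧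
      Al2 R₁ R₂ ((GI (X' ++ hl B₁)).subgroupOf N) = Al2 R₁ R₂ ⊤ := by
  have h1 : Al R₁ ((GI (X' ++ hl B')).subgroupOf N) = ⊤ := by
    have h2 := congrArg (fun A => A.map (AlgHom.fst K (Module.End K V) (Module.End K V))) hF
    simp only [Nof_fst] at h2
    rw [h2, hr1]
  have h2 : Al R₂ ((GI (X' ++ hl B')).subgroupOf N) = ⊤ := by
    have h2 := congrArg (fun A => A.map (AlgHom.snd K (Module.End K V) (Module.End K V))) hF
    simp only [Nof_snd] at h2
    rw [h2, hr2]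
  obtain ⟨s, p, t, rfl, h3⟩ := thm_Nof K V Γ k N R₁ R₂ X' B'
    (fun h hh => hk h (List.mem_append_left _ hh)) h1 h2 hlen
  obtain ⟨u, -, hu⟩ := IReach.move_right' (hl t) (Sum.inl p : It Γ k)
  refine ⟨s ++ t, cj1 u p, ?_, ?_, ?_, ?_, h3.trans hF⟩
  · have h4 := hu.context (X' ++ hl s) (hl P)
    have e1 : X' ++ hl s ++ (Sum.inl p :: hl t) ++ hl P = X' ++ hl (s ++ p :: t ++ P) := by
      rw [hl_append, hl_append, hl_cons]
      simp only [List.append_assoc]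
    have e2 : X' ++ hl s ++ (hl t ++ [icj u (Sum.inl p)]) ++ hl P =
        X' ++ hl (s ++ t ++ (cj1 u p :: P)) := by
      rw [hl_append, hl_append, hl_cons]
      simp only [List.append_assoc, List.singleton_append]
      rfl
    rwa [e1, e2] at h4
  · simp only [List.length_append, List.length_cons]
    omega
  · intro h hh
    rcases List.mem_append.1 hh with hh | hh
    · rcases List.mem_append.1 hh with hh | hh
      · exact hg h (by simp [hh])
      · exact hg h (by simp [hh])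
    · rcases List.mem_cons.1 hh with rfl | hh
      · exact (hg p (by simp)).cj1 u
      · exact hg h (by simp [hh])
  · intro h hh
    rcases List.mem_append.1 hh with hh | hh
    · rcases List.mem_append.1 hh with hh | hh
      · exact hk h (by simp [hh])
      · exact hk h (by simp [hh])
    · rcases List.mem_cons.1 hh with rfl | hh
      · exact (hk p (by simp)).cj1 u
      · exact hk h (by simp [hh])

/-- a full block can be split off, with the algebra of the pair -/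
theorem Gr3_pair (hA : LGC.St_All) (hG : LGC.St_Gek) {K V Γ : Type} [Field K] [IsAlgClosed K]
    [AddCommGroup V] [Module K V] [FiniteDimensional K V] [Nontrivial V] [Group Γ] {k : ℕ}
    (N : Subgroup Γ) [N.Normal] (R₁ R₂ : N →* Module.End K V) (X : List (It Γ k))
    (B : List (Hd Γ k)) (m : ℕ) (hgood : ∀ h ∈ B, Good h) (hkl : ∀ h ∈ B, Kl N h)
    (hr1 : Al R₁ ⊤ = ⊤) (hr2 : Al R₂ ⊤ = ⊤)
    (hF : Al2 R₁ R₂ ((GI (X ++ hl B)).subgroupOf N) = Al2 R₁ R₂ ⊤)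
    (hm : 8 * finrank K V ≤ m) (hlen : m + 8 * finrank K V ≤ B.length) :
    ∃ (X' : List (It Γ k)) (B' P : List (Hd Γ k)),
      IReach (X ++ hl B) (X' ++ hl (B' ++ P)) ∧ X'.map (cls N) = X.map (cls N) ∧
      P.length = m ∧ B'.length + m = B.length ∧ (∀ h ∈ B' ++ P, Good h) ∧
      (∀ h ∈ B' ++ P, Kl N h) ∧ Al2 R₁ R₂ ((SpQ.E P).subgroupOf N) = Al2 R₁ R₂ ⊤ ∧
      Al2 R₁ R₂ ((GI (X' ++ hl B')).subgroupOf N) = Al2 R₁ R₂ ⊤ := by
  have hd : 1 ≤ finrank K V := Module.finrank_pos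
  have hir : EKL.Ir (R₁.prod R₂) :=
    ⟨fun W hW => Nof_irr R₁ ⊤ hr1 W fun x _ v hv => hW x v hv,
      fun W hW => Nof_irr R₂ ⊤ hr2 W fun x _ v hv => hW x v hv⟩
  obtain ⟨X', B', P, h1, h2, h3, h4, h5, h6, h7, h8⟩ := EKL.grf hA hG hir hgood hkl hF (by omega)
  -- handles are added
  have key : ∀ c : ℕ, P.length + c ≤ m → ∃ (B₁ P₁ : List (Hd Γ k)),
      IReach (X' ++ hl (B' ++ P)) (X' ++ hl (B₁ ++ P₁)) ∧ P₁.length = P.length + c ∧
      B₁.length + P₁.length = B.length ∧ (∀ h ∈ B₁ ++ P₁, Good h) ∧ (∀ h ∈ B₁ ++ P₁, Kl N h) ∧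
      SpQ.E P ≤ SpQ.E P₁ ∧
      Al2 R₁ R₂ ((GI (X' ++ hl B₁)).subgroupOf N) = Al2 R₁ R₂ ⊤ := by
    intro c
    induction c with
    | zero =>
      intro _
      exact ⟨B', P, IReach.refl _, rfl, h5, h3, h4, le_rfl, h8⟩
    | succ c ih =>
      intro hc
      obtain ⟨B₁, P₁, e1, e2, e3, e4, e5, e6, e7⟩ := ih (by omega)
      obtain ⟨B₂, p, f1, f2, f3, f4, f5⟩ := Gr3_add N R₁ R₂ hr1 hr2 X' B₁ P₁ e4 e5 e7 (by omega)
      refine ⟨B₂, p :: P₁, e1.trans f1, ?_, ?_, f3, f4, ?_, f5⟩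
      · rw [List.length_cons]
        omega
      · rw [List.length_cons]
        omega
      · refine e6.trans ?_
        have h9 : p :: P₁ = [p] ++ P₁ := rfl
        rw [h9, SpQ.E_append]
        exact le_sup_right
  obtain ⟨B₁, P₁, e1, e2, e3, e4, e5, e6, e7⟩ := key (m - P.length) (by omega)
  have h9 : Al2 R₁ R₂ ((SpQ.E P₁).subgroupOf N) = Al2 R₁ R₂ ⊤ :=
    EKL.Fl.mono (R := R₁.prod R₂) h7 e6
  exact ⟨X', B₁, P₁, h1.trans e1, h2, by omega, by omega, e4, e5, h9, e7⟩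

/-- **GR3**. -/
theorem thm_Gr3 (hA : LGC.St_All) (hG : LGC.St_Gek) : St_Gr3 := by
  intro K V Γ _ _ _ _ _ _ _ k N _ R₁ R₂ X B m hgood hkl hr1 hr2 hF hm hlen
  obtain ⟨X', B₁, P₁, e1, e2, e3, e4, e5, e6, h9, e7⟩ :=
    Gr3_pair hA hG N R₁ R₂ X B m hgood hkl hr1 hr2 hF hm hlen
  refine ⟨X', B₁, P₁, e1, e2, e3, e4, e5, e6, ?_, ?_, e7⟩
  · have h10 := congrArg (fun A => A.map (AlgHom.fst K (Module.End K V) (Module.End K V))) h9
    simp only [Nof_fst] at h10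
    rw [h10, hr1]
  · have h10 := congrArg (fun A => A.map (AlgHom.snd K (Module.End K V) (Module.End K V))) h9
    simp only [Nof_snd] at h10
    rw [h10, hr2]

end Pool.Agent.LGN
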