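import Pool.Agent.LGN.St

/-!
# Near-linear range: module Gra

Subspaces of `End V × End V` which are orthogonal for a trace form are graphs (MP_0707f5_ag).
-/

set_option autoImplicit false

namespace Pool.Agent.LGN

open Module

private theorem Gra_nondeg {K V : Type} [Field K] [AddCommGroup V] [Module K V]
    [FiniteDimensional K V] (a : Module.End K V)
    (h : ∀ b : Module.End K V, LinearMap.trace K V (a * b) = 0) : a = 0 := by
  ext v
  rw [LinearMap.zero_apply, ← Module.forall_dual_apply_eq_zero_iff K]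
  intro φ
  have h1 := h (φ.smulRight v)
  have h2 : a * (φ.smulRight v) = φ.smulRight (a v) := by
    ext w
    simp [LinearMap.smulRight_apply]
  rw [h2, LinearMap.trace_smulRight] at h1
  exact h1

theorem thm_Gra : St_Gra := by
  intro K V _ _ _ _ g₁ g₂ hg₁ hg₂ L L' h1 h2 horth L₀ hL hL0
  refine le_antisymm hL fun l hl => ?_
  obtain ⟨l₀, hl₀, he⟩ := hL0 l.1
  have hz : ∀ b : Module.End K V, LinearMap.trace K V (g₂ * (l.2 - l₀.2) * b) = 0 := by
    intro b
    obtain ⟨l', hl', hb⟩ := h2 b
    have h3 := horth (l - l₀) (sub_mem hl (hL hl₀)) l' hl'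
    rw [Prod.fst_sub, Prod.snd_sub, he, sub_self, zero_mul, mul_zero, map_zero, hb, ← mul_assoc] at h3
    exact h3.symm
  have h4 := Gra_nondeg _ hz
  have h5 : l.2 - l₀.2 = 0 := by
    rwa [hg₂.mul_right_eq_zero] at h4
  have h6 : l = l₀ := Prod.ext he.symm (sub_eq_zero.1 h5)
  rw [h6]
  exact hl₀

end Pool.Agent.LGN
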