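import Pool.Agent.LGN.Defs

/-!
# Near-linear range: statements

Helper21, for MP_0707f5_ag.

Goal (`St_Two`): two irreducible representations of `N` of rank `r` whose traces agree on the loops
of weight zero of the killed handles have the same character, if there are `≥ 54 r (log₂ r + 1)`
killed handles.

Notation: `r = finrank K V`, `y = finrank K Y`, `L = Nat.log 2 r`, a block is a list of handles, `B` is
FULL if it is good and `Al R (E B) = ⊤`.  `SL R B` is the set of the spare letters of `B`.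
-/

set_option autoImplicit false

namespace Pool.Agent.LGN

open Module Matrix
open SpQ (Hd WStep WReach WExt Good bd cj1 IsSpinStructure)
open LGC (It GI hl IReach Kl cls istd)
open LGP (F ga gb gx x0 MC NS prj wty)
open Helper12.Sc

/-! ### irreducibility (helper33) -/

/-- **POT**.  A potential for irreducibility.
PROOF (helper33). `μ H = l(H) + u(H)`: the length of `V` as an `H`-module, and the length of its socle.
(1) `H ≤ H'` gives `μ H' ≤ μ H` because there are fewer stable subspaces.  Let `μ` be constant as in the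
hypotheses.  (2) Simple `H₁`-submodules are simple over `H₀` (lengths are additive), so
`soc H₁ ⊆ soc H₀`, with equality because the lengths are the same.  So `soc H₀` is stable under all `H₁`,
and `soc H₀ = V`, `V` is semisimple over `H₀` and over the `H₁`, with the same length.
(3) An isotypic component of `V` over `H₀` is stable under each `H₁` (`V` is a direct sum of
`H₁`-submodules which are simple over `H₀`; group them), so it is `V`.  In the same way `V` is isotypic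
over each `H₁`.  (4) So the commutants of `H₀` and `H₁` have the same dimension `l ^ 2`, and are equal.
All `H₁` commute with the commutant of `H₀`, so it consists of the scalars, `l = 1`, Burnside
(`Pool.Agent.Helper7.burnside`). -/
def St_Pot : Prop := ∀ (K V G : Type) [Field K] [IsAlgClosed K] [AddCommGroup V] [Module K V]
    [FiniteDimensional K V] [Nontrivial V] [Group G] (R : G →* Module.End K V),
    ∃ μ : Subgroup G → ℕ, (∀ H H' : Subgroup G, H ≤ H' → μ H' ≤ μ H) ∧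
      (∀ H, 2 ≤ μ H ∧ μ H ≤ 2 * finrank K V) ∧
    ∀ (H₀ : Subgroup G) (S₁ : Set (Subgroup G)) (S₂ : Subgroup G → Set (Subgroup G)),
      (∀ H₁ ∈ S₁, H₀ ≤ H₁ ∧ μ H₁ = μ H₀) →
      (∀ H₁ ∈ S₁, ∀ H₂ ∈ S₂ H₁, H₁ ≤ H₂ ∧ μ H₂ = μ H₀) →
      (∀ H : Subgroup G, H₀ ≤ H → (∀ H₁ ∈ S₁, H₁ ≤ H) → Al R H = ⊤) →
      (∀ H₁ ∈ S₁, ∀ H : Subgroup G, H₁ ≤ H → (∀ H₂ ∈ S₂ H₁, H₂ ≤ H) → Al R H = ⊤) →
      Al R H₀ = ⊤

/-- **NOF**.  A long list of killed handles contains one which is not needed for the algebra of the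
pair.
PROOF (helper33). For `I ⊆ B` let `N_I = N ⊓ GI (X ++ hl I)`.  For `I ≠ B` the group `N_B` is generated
by the `N_{I + j}`, `j ∉ I` (as in `LGC.non2`, Csp.lean).  With `St_Pot`, greedily, at most `8 r - 8`
handles give `I` with `Al R₁ (N_I) = ⊤`, `Al R₂ (N_I) = ⊤`; with at most one handle more
`Al2 R₁ R₂ (N_I) = Al2 R₁ R₂ (N_B)` (Goursat: `Al2` is everything or a graph). -/
def St_Nof : Prop := ∀ (K V Γ : Type) [Field K] [IsAlgClosed K] [AddCommGroup V] [Module K V]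
    [FiniteDimensional K V] [Nontrivial V] [Group Γ] (k : ℕ) (N : Subgroup Γ) [N.Normal]
    (R₁ R₂ : N →* Module.End K V) (X : List (It Γ k)) (B : List (Hd Γ k)), (∀ h ∈ B, Kl N h) →
    Al R₁ ((GI (X ++ hl B)).subgroupOf N) = ⊤ → Al R₂ ((GI (X ++ hl B)).subgroupOf N) = ⊤ →
    8 * finrank K V ≤ B.length →
    ∃ (s : List (Hd Γ k)) (p : Hd Γ k) (t : List (Hd Γ k)), B = s ++ p :: t ∧
      Al2 R₁ R₂ ((GI (X ++ hl (s ++ t))).subgroupOf N) =
        Al2 R₁ R₂ ((GI (X ++ hl B)).subgroupOf N)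

/-- **NOG**.  The same for one representation and handles only. -/
def St_Nog : Prop := ∀ (K V G : Type) [Field K] [IsAlgClosed K] [AddCommGroup V] [Module K V]
    [FiniteDimensional K V] [Nontrivial V] [Group G] (k : ℕ)
    (R : G →* Module.End K V) (B : List (Hd G k)),
    Al R (SpQ.E B) = ⊤ → 8 * finrank K V ≤ B.length →
    ∃ (s : List (Hd G k)) (p : Hd G k) (t : List (Hd G k)), B = s ++ p :: t ∧
      Al R (SpQ.E (s ++ t)) = ⊤

/-! ### letters of full blocks -/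

/-- **SPR**.  A spare letter is the letter of one handle; at most one handle is lost.
PROOF. `x ∈ fc T (-1)`: `WReach T (J' ++ [p])`, `p = ((x, y), (-1, q))`.  `SpQ.move_block`:
`WReach (B₁ ++ J') (J'' ++ B₁)`.  If `J ++ J'' = []` we are done.  Otherwise `SpQ.exists_good` for
`J ++ J'' = h₀ :: G₀`: `h₁ :: G₁` with `G₁` good; take `[h₁]`, `G₁ ++ B₁`, `p`. -/
def St_Spr : Prop := ∀ (K V G : Type) [Field K] [AddCommGroup V] [Module K V] [Group G] (k : ℕ)
    (R : G →* Module.End K V) (B : List (Hd G k)) (x : G), x ∈ SL R B →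
    ∃ (J B₁ : List (Hd G k)) (p : Hd G k), WReach B (J ++ B₁ ++ [p]) ∧ J.length ≤ 1 ∧
      (∀ h ∈ B₁, Good h) ∧ Al R (SpQ.E B₁) = ⊤ ∧ x ∈ SpQ.fc [p] (-1)

/-- **ALW**.  A subgroup which contains the spare letters contains everything.
PROOF. `LGC.St_All` with `full G = (Al R G = ⊤)`.  The second hypothesis is `St_Nog` (`WReach` preserves
`E` and the length).  The third one: `WReach B (B' ++ [p])`, `p = ((x, y), (-1, 1))`; `x` and `y⁻¹` are in
`fc [p] (-1)` (as at the end of `LGC.wvec2`), so in `SL R B` with `J = []`, `T = [p]`. -/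
def St_Alw : Prop := ∀ (K V G : Type) [Field K] [IsAlgClosed K] [AddCommGroup V] [Module K V]
    [FiniteDimensional K V] [Nontrivial V] [Group G] (k : ℕ)
    (R : G →* Module.End K V) (B : List (Hd G k)) (H : Subgroup G), (∀ h ∈ B, Good h) →
    Al R (SpQ.E B) = ⊤ → 8 * finrank K V ≤ B.length → (∀ x ∈ SL R B, x ∈ H) → SpQ.E B ≤ H

/-- **TW2**.  The spare letters act 2-transitively.
PROOF. Let `z = (v₁, v₂)` in `U = V × V`, `L(P) = span (z, (R x v₁, R x v₂) : x ∈ fc P (-1))`.  Claim for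
`m < 2 r`: there are `B', P` with `WReach B (B' ++ P)`, all good, `Al R (E B') = ⊤`, `P.length ≤ m`,
`B'.length + P.length = B.length`, and `L(P) = ⊤` or `m + 1 ≤ finrank L(P)`.  `m = 0`: `P = []`.  Step
(`L(P) ≠ ⊤`, `P.length ≤ m`, so `8 r ≤ B'.length`): if
`L([p] ++ P) = L(P)` for all `WReach B' (B₁ ++ [p])`, good, `Al R (E B₁) = ⊤`, then as in `LGC.wvec2`
`E [p]` is in the stabiliser `LGP.stb` of `L(P)`, so `E B'` by `LGC.St_All` and `St_Nog`, so `L(P)` is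
stable under `Al R (E B') = ⊤` (acting on `V × V`) and contains `(v₁, v₂)`: it is `⊤` (for independent
`v₁, v₂` there is `f` with `f v₁ = u₁`, `f v₂ = u₂`).  Otherwise take `B₁`, `[p] ++ P`.  At the end
`L(P) = ⊤`, and `fc P (-1) ⊆ SL R B` (`J = []`, `B₁ = B'`, `T = P`).  The same proof with `U = V` for one
vector.  (It is best to do the proof for an arbitrary module `U` with `dim U ≤ 2 r` and a vector `z`
such that `⊤` is the only subspace which contains `z` and is stable under a subgroup `H` with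
`Al R H = ⊤`.) -/
def St_Tw2 : Prop := ∀ (K V G : Type) [Field K] [IsAlgClosed K] [AddCommGroup V] [Module K V]
    [FiniteDimensional K V] [Nontrivial V] [Group G] (k : ℕ)
    (R : G →* Module.End K V) (B : List (Hd G k)), (∀ h ∈ B, Good h) →
    Al R (SpQ.E B) = ⊤ → 10 * finrank K V ≤ B.length →
    (∀ v : V, v ≠ 0 → ∀ u : V, ∃ f ∈ Fsp R (SL R B), f v = u) ∧
    ∀ v₁ v₂ : V, LinearIndependent K ![v₁, v₂] → ∀ u₁ u₂ : V,
      ∃ f ∈ Fsp R (SL R B), f v₁ = u₁ ∧ f v₂ = u₂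

/-! ### linear algebra -/

/-- **LIN**.  Almost invariant pairs of subspaces.  Write `M_Y = Hom (Y, V)`; for `Y₁ ≤ Y` let
`M(Y₁) = {z | z = 0 on Y₁}`, of dimension `r (dim Y - dim Y₁)`.
PROOF. (1) Claim, by induction on `dim Y`: if `Z'` contains no `M(Y₁)` with `Y₁ ≠ ⊤` then `Z = 0`.
For `y ≠ 0` let `ev z = z y`, `Z₁ = Z ⊓ ker ev`, `Z'₁ = Z' ⊓ ker ev`, subspaces of
`ker ev = Hom (Y / y, V)`.  If `ev Z = 0` then `Z₁ = Z`, and `Z₁ = 0` by induction.  If `ev Z ≠ 0` then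
`ev Z' = V` (transitivity), `dim Z'₁ = dim Z' - r`, `dim Z₁ ≥ dim Z - r`, and again `Z₁ = 0` by induction.
So if `Z ≠ 0`: `Z ⊓ ker ev_y = 0` for all `y ≠ 0`; `dim Z ≤ r`.  If there are independent `y₁, y₂` and
`z ∈ Z`, `z ≠ 0`, then `z y₁`, `z y₂` are independent, so by 2-transitivity `Z' → V × V`,
`z ↦ (z y₁, z y₂)` is onto, `dim Z' ≥ 2 r ≥ dim Z + r`, a contradiction.  If `dim Y = 1` then `Z'` is
everything, `= M(0)`, a contradiction.
(2) In general let `Y₁` be of minimal dimension with `M(Y₁) ≤ Z'` (`Y₁ = ⊤` is possible).  Restriction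
to `Y₁` is onto `Hom (Y₁, V)` with kernel `M(Y₁)`.  (1) for the images of `Z`, `Z'`: the image of `Z` is `0`,
so `Z ≤ M(Y₁) ≤ Z'`, `j = dim Y - dim Y₁`. -/
def St_Lin : Prop := ∀ (K V Y : Type) [Field K] [AddCommGroup V] [Module K V]
    [FiniteDimensional K V] [AddCommGroup Y] [Module K Y] [FiniteDimensional K Y]
    (A : Submodule K (Module.End K V)),
    (∀ v : V, v ≠ 0 → ∀ u : V, ∃ f ∈ A, f v = u) →
    (∀ v₁ v₂ : V, LinearIndependent K ![v₁, v₂] → ∀ u₁ u₂ : V,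
      ∃ f ∈ A, f v₁ = u₁ ∧ f v₂ = u₂) →
    ∀ Z Z' : Submodule K (Y →ₗ[K] V), Z ≤ Z' → (∀ f ∈ A, ∀ z ∈ Z, pc Y f z ∈ Z') →
    finrank K Z' < finrank K Z + finrank K V →
    ∃ j : ℕ, finrank K Z ≤ finrank K V * j ∧ finrank K V * j ≤ finrank K Z'

/-- **SUB**.  The lattice of the near-minimisers of a submodular function.
PROOF (helper35). `f W = ∑ i, dst W (U i)` is submodular:
`f (W ⊓ W') + f (W ⊔ W') ≤ f W + f W'` (`dst W U = dim W + dim U - 2 dim (W ⊓ U)`), and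
`n * |dim W - u| ≤ f W`.  Let `f W₀ = v`, so `|dim W₀ - u| ≤ 2 t`.  Let `W₁, W₂, ...` be near-minimisers
with `Z_j = W₀ ⊓ W₁ ⊓ ... ⊓ W_j` strictly decreasing; as `f (Z ⊔ W) ≥ v`:
`f Z_j ≤ v + j n / 2`, and `n (u - dim Z_j) ≤ f Z_j`, `dim Z_j ≤ dim W₀ - j ≤ u + 2 t - j`: so
`j - 2 t ≤ 2 t + j / 2`, `j ≤ 8 t`.  For a maximal chain `Z_j` is the infimum and
`n (u - dim Z_j) ≤ v + j n / 2 ≤ 6 t n`.  The same for sums. -/
def St_Sub : Prop := ∀ (K M : Type) [Field K] [AddCommGroup M] [Module K M]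
    [FiniteDimensional K M] (n u v t : ℕ) (U : Fin n → Submodule K M), 0 < n →
    (∀ i, finrank K (U i) = u) → v ≤ 2 * t * n → (∀ W, v ≤ ∑ i, dst W (U i)) →
    (∃ W, ∑ i, dst W (U i) = v) →
    u ≤ finrank K ↥(sInf {W : Submodule K M | 2 * ∑ i, dst W (U i) ≤ 2 * v + n}) + 6 * t ∧
      finrank K ↥(sSup {W : Submodule K M | 2 * ∑ i, dst W (U i) ≤ 2 * v + n}) ≤ u + 6 * t

/-- **ARI**.  Growth at least `dist (u, r ℤ) / 6`, and at least `1`.
PROOF. `L = log₂ r`.  Claim: `r j ≤ u (j (9 L + 1))` for `j ≤ y`.  From `u i ≥ r j` (and `u i ≥ 1` if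
`j = 0`): after one step `u ≥ r j + 1`.  Let `s = u - r j`.  As long as `2 s < r` take `δ = s`:
`s` becomes `≥ 7 s / 6`, so after `5 m` steps `2 s ≥ r` or `s ≥ 2 ^ m` (`(7 / 6) ^ 5 > 2`); `m = L`: `2 s ≥ r`.
Now let `t = r (j + 1) - u`, `2 t ≤ r`, take `δ = t`: `t` becomes `≤ 5 t / 6`; after `4 m` steps
`t < 2 ^ (L - m)` (`(5 / 6) ^ 4 < 1 / 2`); `m = L`: `t = 0`. -/
def St_Ari : Prop := ∀ (r y : ℕ) (u : ℕ → ℕ), 0 < r → 1 ≤ u 0 → (∀ i, u i ≤ u (i + 1)) →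
    (∀ i < y * (9 * Nat.log 2 r + 1), u i < r * y → u i + 1 ≤ u (i + 1) ∧
      ∀ δ : ℕ, (∀ j : ℕ, r * j + δ ≤ u i ∨ u i + δ ≤ r * j) → 6 * u i + δ ≤ 6 * u (i + 1)) →
    r * y ≤ u (y * (9 * Nat.log 2 r + 1))

/-! ### growth -/

/-- **GRO**.  If all spare letters enlarge `U` only by `t` then `dim U` is near a multiple of `r`.
PROOF. States: `(J, B', T)`, `WReach B (J ++ B' ++ T)`, `B'` good, `Al R (E B') = ⊤`; it has LEVEL `i` if
`B.length ≤ B'.length + 2 i`.  For `x : Fin n → G` with all `x a ∈ {1} ∪ fc T (-1)` let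
`F_x W = ∑ a, dst W (x_a U)`, `x_a U = U.map (pc Y (R (x a)))`.  All these are in `SL R B` or `1`, so
`F_x U ≤ 2 t n`.  Let `V i` be the greatest `v` such that for some state of level `i` and some `x` with
`n = 2 ^ i` all `F_x W ≥ v`; `V i ≤ 2 t 2 ^ i`.  If `2 V (i + 1) ≥ 4 V i + 2 ^ i + 1` for all `i ≤ 8 t` then
`4 V i ≥ i 2 ^ i`, a contradiction for `i = 8 t + 1`.  So there is `i ≤ 8 t` with
`2 V (i + 1) ≤ 4 V i + 2 ^ i`.  Take the state and `x` for `v = V i`, `n = 2 ^ i`; `v = min F_x`.  Let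
`y ∈ SL R B'`, `St_Spr`: `WReach B' (J₂ ++ B₂ ++ [p])`.  The state `(J ++ J₂, B₂, [p] ++ T)` has level
`i + 1`, and `x`, `y x` together are `2 n` letters of it (`SpQ.fc_mul`).  So there is `W'` with
`2 (F_x W' + F_{y x} W') ≤ 4 v + n`, `F_{y x} W' = F_x (y⁻¹ W')`, and both are `≥ v`, so `W'`, `y⁻¹ W'` are
in `{W | 2 F_x W ≤ 2 v + n}`, with infimum `Z` and supremum `Z'`, so `y Z ≤ Z'`.
`St_Sub`: `u ≤ dim Z + 6 t`, `dim Z' ≤ u + 6 t`.  `St_Tw2` for `B'` (`B'.length ≥ 12 r - 16 t ≥ 10 r`) and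
`St_Lin` for `A = Fsp R (SL R B')`. -/
def St_Gro : Prop := ∀ (K V Y G : Type) [Field K] [IsAlgClosed K] [AddCommGroup V] [Module K V]
    [FiniteDimensional K V] [Nontrivial V] [AddCommGroup Y] [Module K Y] [FiniteDimensional K Y]
    [Group G] (k : ℕ) (R : G →* Module.End K V) (B : List (Hd G k))
    (U : Submodule K (Y →ₗ[K] V)) (t : ℕ), (∀ h ∈ B, Good h) → Al R (SpQ.E B) = ⊤ →
    12 * t < finrank K V → 12 * finrank K V ≤ B.length →
    (∀ x ∈ SL R B, finrank K ↥(U ⊔ U.map (pc Y (R x))) ≤ finrank K U + t) →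
    ∃ j : ℕ, finrank K V * j ≤ finrank K U + 6 * t ∧ finrank K U ≤ finrank K V * j + 6 * t

/-- **STP**.  One step.
PROOF. `δ = 0`: otherwise `U.map (pc Y (R x)) ≤ U` for `x ∈ SL R B`, so by `St_Alw` (`H` = the stabiliser
`LGP.stb` for the representation `x ↦ pc Y (R x)`) `U` is stable under `Al R (E B) = ⊤`; `w ∈ U` is
injective, so `U = ⊤`.  `δ ≥ 1`: with `u = dim U`, `j = u / r`: `2 δ ≤ r`.  `t = (δ - 1) / 6`, `12 t < r`.  If
all `x ∈ SL R B` have `dim (U + x U) ≤ u + t` then `St_Gro` gives `j` with `|u - r j| ≤ 6 t < δ`, a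
contradiction.  So some `x` has `dim (U + x U) ≥ u + t + 1` and `6 (t + 1) ≥ δ`. -/
def St_Stp : Prop := ∀ (K V Y G : Type) [Field K] [IsAlgClosed K] [AddCommGroup V] [Module K V]
    [FiniteDimensional K V] [Nontrivial V] [AddCommGroup Y] [Module K Y] [FiniteDimensional K Y]
    [Group G] (k : ℕ) (R : G →* Module.End K V) (B : List (Hd G k))
    (U : Submodule K (Y →ₗ[K] V)) (w : Y →ₗ[K] V) (δ : ℕ), (∀ h ∈ B, Good h) →
    Al R (SpQ.E B) = ⊤ → 12 * finrank K V ≤ B.length → Function.Injective w → w ∈ U → U ≠ ⊤ →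
    (∀ j : ℕ, finrank K V * j + δ ≤ finrank K U ∨ finrank K U + δ ≤ finrank K V * j) →
    ∃ x ∈ SL R B, finrank K U + 1 ≤ finrank K ↥(U ⊔ U.map (pc Y (R x))) ∧
      6 * finrank K U + δ ≤ 6 * finrank K ↥(U ⊔ U.map (pc Y (R x)))

/-- **SPN**.  The letters of a full block span everything.
PROOF. `y = dim Y = 0` is trivial.  Let `u i` be the greatest `dim (Spw R w P)` for the states
`(J, B', P)`, `WReach B (J ++ B' ++ P)`, `B'` good, `Al R (E B') = ⊤`, `B.length ≤ B'.length + 2 i`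
(`J = P = []`, `B' = B` is one, `u 0 ≥ 1` as `w ≠ 0`).  Step: `St_Stp` for `B'` (`B'.length ≥ 12 r` for
`i < y (9 L + 1)`, even `≥ 12 r + 2`), `U = Spw R w P`, `x ∈ SL R B'`, `St_Spr`:
`WReach B' (J₂ ++ B₂ ++ [p])`, new state `(J ++ J₂, B₂, [p] ++ P)`;
`Spw R w ([p] ++ P)` contains `Spw R w P` and its image under `x` (`SpQ.fc_mul`, weights
`-1 + -1 + 1 = -1`).  `St_Ari`: `r y ≤ u (y (9 L + 1))`; `Spw R w P ≤ Spw R w B` (`SpQ.fc_mono`).
(For one value of `i` the two clauses of `St_Ari` need the same next value: use the maximality.) -/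
def St_Spn : Prop := ∀ (K V Y G : Type) [Field K] [IsAlgClosed K] [AddCommGroup V] [Module K V]
    [FiniteDimensional K V] [Nontrivial V] [AddCommGroup Y] [Module K Y] [FiniteDimensional K Y]
    [Group G] (k : ℕ) (R : G →* Module.End K V) (w : Y →ₗ[K] V) (B : List (Hd G k)),
    Function.Injective w → (∀ h ∈ B, Good h) → Al R (SpQ.E B) = ⊤ →
    12 * finrank K V + 2 * (finrank K Y * (9 * Nat.log 2 (finrank K V) + 1)) ≤ B.length →
    Spw R w B = ⊤

/-- **SPX**.  The same for killed handles, with `w = 1`.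
PROOF. `P` consists of killed handles, so it is the image (`SpQ.mapH N.subtype` or `List.map`) of a list
`P'` of handles of `N`; `(E P).subgroupOf N = E P'`, and `fc P' (-1)` is mapped into `fc P (-1)`
(`SpQ.mapH_step`).  `St_Spn` for `G = N`, `Y = V`, `w = LinearMap.id`. -/
def St_Spx : Prop := ∀ (K V Γ : Type) [Field K] [IsAlgClosed K] [AddCommGroup V] [Module K V]
    [FiniteDimensional K V] [Nontrivial V] [Group Γ] (k : ℕ) (N : Subgroup Γ)
    (R : N →* Module.End K V) (P : List (Hd Γ k)), (∀ h ∈ P, Good h) → (∀ h ∈ P, Kl N h) →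
    Al R ((SpQ.E P).subgroupOf N) = ⊤ →
    12 * finrank K V + 2 * (finrank K V * (9 * Nat.log 2 (finrank K V) + 1)) ≤ P.length →
    Fsp R {x : N | (x : Γ) ∈ SpQ.fc P (-1)} = ⊤

/-! ### in the context -/

/-- **ALX**.  A subgroup which contains all spare handles contains `N ⊓ GI (X ++ hl B)`.
PROOF. As in Grw2.lean: `LGC.St_Gek` for the image of `H` in `Γ`, and for each reachable `X'', B''`
`LGC.St_All` with `full G = (Al2 R₁ R₂ ((GI X'' ⊔ G).subgroupOf N) = Al2 R₁ R₂ ⊤)`; `GI (X'' ++ hl B'')`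
is the same group (`IReach.GI_eq`), `St_Nof` gives the second hypothesis (`Al R₁` of that group is `⊤`
because `Al2` is that of `⊤`: project). -/
def St_Alx : Prop := ∀ (K V Γ : Type) [Field K] [IsAlgClosed K] [AddCommGroup V] [Module K V]
    [FiniteDimensional K V] [Nontrivial V] [Group Γ] (k : ℕ) (N : Subgroup Γ) [N.Normal]
    (R₁ R₂ : N →* Module.End K V) (X : List (It Γ k)) (B : List (Hd Γ k)) (H : Subgroup N),
    (∀ h ∈ B, Good h) → (∀ h ∈ B, Kl N h) → Al R₁ ⊤ = ⊤ → Al R₂ ⊤ = ⊤ →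
    Al2 R₁ R₂ ((GI (X ++ hl B)).subgroupOf N) = Al2 R₁ R₂ ⊤ → 8 * finrank K V ≤ B.length →
    (∀ (X' : List (It Γ k)) (B' : List (Hd Γ k)) (p : Hd Γ k),
      IReach (X ++ hl B) (X' ++ hl (B' ++ [p])) → X'.map (cls N) = X.map (cls N) →
      B'.length + 1 = B.length → (∀ h ∈ B' ++ [p], Good h) → (∀ h ∈ B' ++ [p], Kl N h) →
      Al2 R₁ R₂ ((GI (X' ++ hl B')).subgroupOf N) = Al2 R₁ R₂ ⊤ →
      (SpQ.E [p]).subgroupOf N ≤ H) →
    (GI (X ++ hl B)).subgroupOf N ≤ H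

/-- **GR3**.  A full block can be split off.
PROOF. `μ₁, μ₂` from `St_Pot` for `R₁, R₂`, `μ P = μ₁ (E P) + μ₂ (E P)` (`(SpQ.E P).subgroupOf N`), between `4` and
`4 r`.  STATE: `X', B', P` reachable, classes kept, good, killed, `B'.length + P.length = B.length`,
`Al2 R₁ R₂ (GI (X' ++ hl B')) = Al2 R₁ R₂ ⊤` (the RELATIVE condition).  A handle can always be added to
`P` while `8 r ≤ B'.length` (`St_Nof`; the spare handle `p` moves to the right end, conjugated by an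
element of `E t`, the others unchanged: `IReach.move_right'`, `SpQ.move_right`; it stays good and
killed).  Claim: for `j ≤ 4 r - 3` there is a state with `P.length = 2 j` and (`Al R₁ (E P) = ⊤` and
`Al R₂ (E P) = ⊤`, or `μ P + j ≤ 4 r`).  Step: if two more handles with smaller `μ` can be added, do it (if
one handle gives smaller `μ`, add another one).  Otherwise for `i = 1, 2` `St_Pot` with `H₀ = E P`,
`S₁ = {E (p :: P)}` for all `X'', B₁ ++ [p]` reachable from `X', B'` with the relative condition, `S₂` the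
same once more; the hypotheses for `H` hold by `St_Alx` and the relative condition (the group
`N ⊓ GI (X' ++ hl B')` is contained in `H`, and `Al R_i` of it is `⊤`), gives `Al R_i (E P) = ⊤`.
For `j = 4 r - 3` the second alternative is impossible (`μ P ≥ 4`).  So `P` of length `8 r - 6` exists;
add handles until `P.length = m`. -/
def St_Gr3 : Prop := ∀ (K V Γ : Type) [Field K] [IsAlgClosed K] [AddCommGroup V] [Module K V]
    [FiniteDimensional K V] [Nontrivial V] [Group Γ] (k : ℕ) (N : Subgroup Γ) [N.Normal]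
    (R₁ R₂ : N →* Module.End K V) (X : List (It Γ k)) (B : List (Hd Γ k)) (m : ℕ),
    (∀ h ∈ B, Good h) → (∀ h ∈ B, Kl N h) → Al R₁ ⊤ = ⊤ → Al R₂ ⊤ = ⊤ →
    Al2 R₁ R₂ ((GI (X ++ hl B)).subgroupOf N) = Al2 R₁ R₂ ⊤ →
    8 * finrank K V ≤ m → m + 8 * finrank K V ≤ B.length →
    ∃ (X' : List (It Γ k)) (B' P : List (Hd Γ k)),
      IReach (X ++ hl B) (X' ++ hl (B' ++ P)) ∧ X'.map (cls N) = X.map (cls N) ∧
      P.length = m ∧ B'.length + m = B.length ∧ (∀ h ∈ B' ++ P, Good h) ∧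
      (∀ h ∈ B' ++ P, Kl N h) ∧ Al R₁ ((SpQ.E P).subgroupOf N) = ⊤ ∧
      Al R₂ ((SpQ.E P).subgroupOf N) = ⊤ ∧
      Al2 R₁ R₂ ((GI (X' ++ hl B')).subgroupOf N) = Al2 R₁ R₂ ⊤

/-- **GRA**.  Subspaces of `D = End V × End V` which are orthogonal for a trace form are graphs.
PROOF. For `l = (a, 0) ∈ L`: `tr (g₁ a b) = 0` for all `(b, b') ∈ L'`, so for all `b`, so `g₁ a = 0`,
`a = 0`; the same for `(0, a')`.  So both projections of `L` to `End V` are injective,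
`dim L ≤ r ^ 2`, with equality if the projection is onto.  (1) `L₁ ≤ L₁₂`, `L₂ ≤ L₁₂`, all of dimension
`r ^ 2`, so they are equal, and `L₁ L₁ = L₁ L₂ ≤ L₁₂ = L₁`.  (2) `Lp ≥ L₁` and `Lp` is orthogonal to `L₂`. -/
def St_Gra : Prop := ∀ (K V : Type) [Field K] [AddCommGroup V] [Module K V]
    [FiniteDimensional K V] (g₁ g₂ : Module.End K V), IsUnit g₁ → IsUnit g₂ →
    ∀ L L' : Submodule K (Module.End K V × Module.End K V),
    (∀ b : Module.End K V, ∃ l ∈ L', l.1 = b) → (∀ b : Module.End K V, ∃ l ∈ L', l.2 = b) →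
    (∀ l ∈ L, ∀ l' ∈ L', LinearMap.trace K V (g₁ * (l.1 * l'.1)) =
      LinearMap.trace K V (g₂ * (l.2 * l'.2))) →
    ∀ L₀ ≤ L, (∀ b : Module.End K V, ∃ l ∈ L₀, l.1 = b) → L₀ = L

/-- **TWO**.  Two irreducible representations of `N` with the same traces on the loops of weight
zero.
PROOF. `κ = 12 r + 2 (r (9 L + 1))`.  `B₀ = h₀ :: G₀`, `SpQ.exists_good`: `h₁ :: B`, `B` good, all killed,
`X = X₀ ++ [inl h₁]`, `B.length ≥ 3 κ + 8 r`.  `St_Gr3` three times with `m = κ`: `X', B'` with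
`X' ++ hl (B' ++ P₁ ++ P₂ ++ P₃)` reachable, classes kept.  For a killed list `P` let
`L(P) = span ((1, 1), (R₁ x, R₂ x) : x ∈ N, x ∈ fc P (-1))` in `D = End V × End V`.
(1) `1 ∈ L(P)`; `L(P) L(Q) ≤ L(P ++ Q)` (`SpQ.fc_mul`), `L(Q) ≤ L(P)` if `WExt P Q`; `L(P_i) → End V` is
onto for both projections (`St_Spx`).
(2) Let `X'' ++ hl Q` be reachable from `X₀ ++ hl B₀`, `Q` killed, where the classes of `X''` are those of
`X`: the last item of `X''` is a killed handle (`cls_killed`), `SpQ.exists_zero` makes it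
`((γ, δ), (0, q))`, and as in Vek2.lean `tr (R₁ γ l.1) = tr (R₂ γ l.2)` for `l ∈ L(Q)`
(`γ ∈ fc (p₀ :: Q) 0`, `γ x ∈ fc (p₀ :: Q) 0`).
(3) `St_Gra` with `g_i = R_i γ`, `L = L(P₁ ++ P₂)`, `L' = L(P₃)`, `L₀ = L(P₁)`, and `L₀ = L(P₂)`:
`L(P₁) = L(P₁ ++ P₂) = L(P₂) = 𝓛`; `𝓛 𝓛 ≤ 𝓛`.  If `X'', B₁ ++ [p]` is reachable from `X', B'` (classes kept,
killed): `St_Gra` with `L = L([p] ++ P₁)`, `L' = L(P₂)`, `L₀ = L(P₁)`: `L([p] ++ P₁) = 𝓛`.  So for
`x ∈ fc [p] (-1)`: `(R₁ x, R₂ x) 𝓛 ≤ 𝓛`; `x` and `y⁻¹` for `p = ((x, y), (-1, 1))` are such, so `E [p]`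
is in the stabiliser `H` of `𝓛` (`LGP.stb` for left multiplication by `(R₁ x, R₂ x)`).
(4) `St_Alx`: `N ⊓ GI (X' ++ hl B') ≤ H`, so `Al2 R₁ R₂ ⊤ = Al2 R₁ R₂ (GI (X' ++ hl B'))` maps `𝓛` to
itself, and `1 ∈ 𝓛`: `(R₁ x, R₂ x) ∈ 𝓛` for all `x ∈ N`.  (2): `tr R₁ (γ x) = tr R₂ (γ x)`. -/
def St_Two : Prop := ∀ (K V Γ : Type) [Field K] [IsAlgClosed K] [AddCommGroup V] [Module K V]
    [FiniteDimensional K V] [Nontrivial V] [Group Γ] (k : ℕ) (N : Subgroup Γ) [N.Normal]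
    (R₁ R₂ : N →* Module.End K V) (X₀ : List (It Γ k)) (B₀ : List (Hd Γ k)),
    (∀ h ∈ B₀, Kl N h) → GI (X₀ ++ hl B₀) = ⊤ → Al R₁ ⊤ = ⊤ → Al R₂ ⊤ = ⊤ →
    54 * finrank K V * (Nat.log 2 (finrank K V) + 1) ≤ B₀.length →
    (∀ (X' : List (It Γ k)) (P : List (Hd Γ k)), IReach (X₀ ++ hl B₀) (X' ++ hl P) →
      (∀ h ∈ P, Kl N h) → ∀ (x : Γ) (hx : x ∈ N), x ∈ SpQ.fc P 0 →
      LinearMap.trace K V (R₁ ⟨x, hx⟩) = LinearMap.trace K V (R₂ ⟨x, hx⟩)) →
    ∀ x : N, LinearMap.trace K V (R₁ x) = LinearMap.trace K V (R₂ x)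

/-! ### application -/

/-- **PR3**.  `LGC.St_Prn2` for irreducible representations in the near-linear range.
PROOF. `r = 0` is trivial.  As `LGC.thm_Prn2` with `St_Two`, `V = Fin r → ℂ`,
`R_i x = Matrix.toLin' (ρ_i x)` (`Matrix.trace_toLin'_eq` or so); `Al R_i ⊤ = ⊤` by Burnside
(`Pool.Agent.Helper7.burnside`, Schur over `ℂ`; see `LGP.thm_Jac`). -/
def St_Pr3 : Prop := ∀ (g n k r h : ℕ) (N : Subgroup (F g n)) [N.Normal], h ≤ g →
    (∀ i : Fin g, (i : ℕ) < h → ga i ∈ N ∧ gb i ∈ N) → ∀ (τ : Fin g → ZMod k × ZMod k)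
    (ρ₁ ρ₂ : N →* GL (Fin r) ℂ), Pool.Agent.HZ.Irr ρ₁.range → Pool.Agent.HZ.Irr ρ₂.range →
    54 * r * (Nat.log 2 r + 1) ≤ h →
    (∀ (X : List (It (F g n) k)) (P : List (Hd (F g n) k)), IReach (istd τ) (X ++ hl P) →
      (∀ p ∈ P, Kl N p) → ∀ (x : F g n) (hx : x ∈ N), x ∈ SpQ.fc P 0 →
      (ρ₁ ⟨x, hx⟩ : Matrix (Fin r) (Fin r) ℂ).trace =
        (ρ₂ ⟨x, hx⟩ : Matrix (Fin r) (Fin r) ℂ).trace) →
    ∀ x : N, (ρ₁ x : Matrix (Fin r) (Fin r) ℂ).trace =
      (ρ₂ x : Matrix (Fin r) (Fin r) ℂ).trace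

/-- **BL3**.  `LGC.St_Blk2` for irreducible representations in the near-linear range.
PROOF. As `LGC.thm_Blk2` (copy the private `Blk_core`), with `St_Pr3`. -/
def St_Bl3 : Prop := ∀ (g n k r h : ℕ) (w : SurfaceGroup g → ZMod k), IsSpinStructure k w →
    ∀ (N : Subgroup (F g n)) [N.Normal] [N.FiniteIndex], ∀ θ ∈ MC g n, θ (x0 g n) = x0 g n →
    h ≤ g → (∀ i : Fin g, (i : ℕ) < h → θ (ga i) ∈ N ∧ θ (gb i) ∈ N) →
    ∀ σ : N →* GL (Fin r) ℂ, Pool.Agent.HZ.Irr σ.range → 54 * r * (Nat.log 2 r + 1) ≤ h →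
    {z : ℂ | ∃ y : N, NS (y : F g n) ∧ w (prj g n y) = 0 ∧
      z = (σ y : Matrix (Fin r) (Fin r) ℂ).trace}.Finite →
    ∀ τ : Fin g → ZMod k × ZMod k,
    {χ : ↥(N.comap θ.toMonoidHom) → ℂ | ∃ φ ∈ MC g n,
      φ (x0 g n) = x0 g n ∧ (∀ y, φ y * (θ y)⁻¹ ∈ N) ∧ wty w φ = τ ∧
      ∃ hφ : ∀ y ∈ N.comap θ.toMonoidHom, φ y ∈ N,
      χ = fun y : ↥(N.comap θ.toMonoidHom) =>
        (σ ⟨φ y, hφ y y.2⟩ : Matrix (Fin r) (Fin r) ℂ).trace}.Finite

end Pool.Agent.LGN
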