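import Mathlib
import Pool.Agent.LGN.St

/-!
# Near-linear range: the growth lemma

Proof of `St_Gro` from `St_Sub`, `St_Tw2`, `St_Lin`, `St_Spr`.
-/

set_option autoImplicit false

namespace Pool.Agent.LGN

open Module
open SpQ (Hd WStep WReach WExt Good)

section
variable {K V Y G : Type} [Field K] [AddCommGroup V] [Module K V] [AddCommGroup Y] [Module K Y]
  [Group G] {k : ℕ}

private lemma Gro_act_mul (R : G →* Module.End K V) (y x : G) (W : Submodule K (Y →ₗ[K] V)) :
    W.map (pc Y (R (y * x))) = (W.map (pc Y (R x))).map (pc Y (R y)) := by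
  rw [← Submodule.map_comp]
  congr 1
  rw [map_mul]
  rfl

private lemma Gro_act_one (R : G →* Module.End K V) (W : Submodule K (Y →ₗ[K] V)) :
    W.map (pc Y (R 1)) = W := by
  have : pc Y (R 1) = (LinearMap.id : (Y →ₗ[K] V) →ₗ[K] (Y →ₗ[K] V)) := by
    rw [map_one]
    rfl
  rw [this, Submodule.map_id]

private lemma Gro_act_inv (R : G →* Module.End K V) (y : G) (W : Submodule K (Y →ₗ[K] V)) :
    (W.map (pc Y (R y⁻¹))).map (pc Y (R y)) = W := by
  rw [← Gro_act_mul, mul_inv_cancel, Gro_act_one]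

private lemma Gro_inj (R : G →* Module.End K V) (x : G) :
    Function.Injective (pc Y (R x)) := by
  have h : ∀ z : Y →ₗ[K] V, pc Y (R x⁻¹) (pc Y (R x) z) = z := by
    intro z
    have e : pc Y (R x⁻¹) (pc Y (R x) z) = pc Y (R x⁻¹ * R x) z := rfl
    rw [e, ← map_mul, inv_mul_cancel, map_one]
    rfl
  exact Function.LeftInverse.injective h

private lemma Gro_finrank (R : G →* Module.End K V) (x : G) (W : Submodule K (Y →ₗ[K] V)) :
    finrank K ↥(W.map (pc Y (R x))) = finrank K W :=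
  (Submodule.equivMapOfInjective (pc Y (R x)) (Gro_inj R x) W).finrank_eq.symm

private lemma Gro_dst (R : G →* Module.End K V) (x : G) (W W' : Submodule K (Y →ₗ[K] V)) :
    dst (W.map (pc Y (R x))) (W'.map (pc Y (R x))) = dst W W' := by
  unfold dst
  rw [← Submodule.map_sup, ← Submodule.map_inf _ (Gro_inj R x), Gro_finrank, Gro_finrank]

private lemma Gro_dst_self (R : G →* Module.End K V) (x : G) [FiniteDimensional K V]
    [FiniteDimensional K Y] (U : Submodule K (Y →ₗ[K] V)) (t : ℕ)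
    (h : finrank K ↥(U ⊔ U.map (pc Y (R x))) ≤ finrank K U + t) :
    dst U (U.map (pc Y (R x))) ≤ 2 * t := by
  unfold dst
  have h1 := Submodule.finrank_sup_add_finrank_inf_eq U (U.map (pc Y (R x)))
  rw [Gro_finrank] at h1
  omega

/-- a value which is a lower bound for a state of level `i` and `n` letters -/
private def Gro_P (R : G →* Module.End K V) (B : List (Hd G k)) (U : Submodule K (Y →ₗ[K] V))
    (i n v : ℕ) : Prop :=
  ∃ (J B' T : List (Hd G k)) (x : Fin n → G), WReach B (J ++ B' ++ T) ∧ (∀ h ∈ B', Good h) ∧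
    Al R (SpQ.E B') = ⊤ ∧ B.length ≤ B'.length + 2 * i ∧
    (∀ a, x a = 1 ∨ x a ∈ SpQ.fc T (-1)) ∧
    ∀ W : Submodule K (Y →ₗ[K] V), v ≤ ∑ a, dst W (U.map (pc Y (R (x a))))

private lemma Gro_letter (R : G →* Module.End K V) (B : List (Hd G k)) (J B' T : List (Hd G k))
    (h1 : WReach B (J ++ B' ++ T)) (h2 : ∀ h ∈ B', Good h) (h3 : Al R (SpQ.E B') = ⊤) (x : G)
    (hx : x ∈ SpQ.fc T (-1)) : x ∈ SL R B :=
  ⟨J, B', T, h1, h2, h3, hx⟩

end

private theorem Gro_core (hS : St_Sub) (hT : St_Tw2) (hL : St_Lin) (hP : St_Spr)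
    (K V Y G : Type) [Field K] [IsAlgClosed K] [AddCommGroup V] [Module K V]
    [FiniteDimensional K V] [Nontrivial V] [AddCommGroup Y] [Module K Y] [FiniteDimensional K Y]
    [Group G] (k : ℕ) (R : G →* Module.End K V) (B : List (Hd G k))
    (U : Submodule K (Y →ₗ[K] V)) (t i n v : ℕ) (ht : 12 * t < finrank K V)
    (hBl : 12 * finrank K V ≤ B.length) (hi : i ≤ 8 * t) (hnpos : 0 < n) (hvt : v ≤ 2 * t * n)
    (hV : Gro_P R B U i n v) (hV1 : ∀ v', Gro_P R B U i n v' → v' ≤ v)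
    (hV2 : ∀ v', Gro_P R B U (i + 1) (n + n) v' → 2 * v' ≤ 4 * v + n) :
    ∃ j : ℕ, finrank K V * j ≤ finrank K U + 6 * t ∧ finrank K U ≤ finrank K V * j + 6 * t := by
  obtain ⟨J, B', T, x, hr, hB', hAl', hlen, hx, hv⟩ := hV
  obtain ⟨F, hF⟩ : ∃ F : Submodule K (Y →ₗ[K] V) → ℕ,
      ∀ W, F W = ∑ a, dst W (U.map (pc Y (R (x a)))) := ⟨_, fun _ => rfl⟩
  have hvF : ∀ W, v ≤ F W := fun W => by rw [hF]; exact hv W
  -- the minimum
  have hmin : ∃ W, F W = v := by
    obtain ⟨W₀, hW₀⟩ : ∃ W₀, ∀ W, F W₀ ≤ F W := by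
      have h1 := Nat.sInf_mem (Set.range_nonempty F)
      obtain ⟨W₀, hW₀⟩ := h1
      refine ⟨W₀, fun W => ?_⟩
      rw [hW₀]
      exact Nat.sInf_le ⟨W, rfl⟩
    refine ⟨W₀, le_antisymm ?_ (hvF W₀)⟩
    exact hV1 _ ⟨J, B', T, x, hr, hB', hAl', hlen, hx, fun W => by rw [← hF]; exact hW₀ W⟩
  have hmin' : ∃ W, ∑ a, dst W (U.map (pc Y (R (x a)))) = v := by
    obtain ⟨W, hW⟩ := hmin
    exact ⟨W, by rw [← hF]; exact hW⟩
  obtain ⟨hZ, hZ'⟩ := hS K (Y →ₗ[K] V) n (finrank K U) v t (fun a => U.map (pc Y (R (x a)))) hnpos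
    (fun a => Gro_finrank R (x a) U) hvt hv hmin'
  obtain ⟨S, hSdef⟩ : ∃ S : Set (Submodule K (Y →ₗ[K] V)),
    S = {W | 2 * ∑ a, dst W (U.map (pc Y (R (x a)))) ≤ 2 * v + n} := ⟨_, rfl⟩
  rw [← hSdef] at hZ hZ'
  have hSm : ∀ W, W ∈ S ↔ 2 * F W ≤ 2 * v + n := by
    intro W
    rw [hSdef, Set.mem_ofPred_eq, hF]
  have hWS : ∃ W, W ∈ S := by
    obtain ⟨W, hW⟩ := hmin
    refine ⟨W, ?_⟩
    rw [hSm, hW]
    omega
  have hZZ : sInf S ≤ sSup S := by
    obtain ⟨W, hW⟩ := hWS
    exact (sInf_le hW).trans (le_sSup hW)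
  -- the letters of `B'` map `Z` to `Z'`
  have hkey : ∀ y ∈ SL R B', (sInf S).map (pc Y (R y)) ≤ sSup S := by
    intro y hy
    obtain ⟨J₂, B₂, p, hr2, hJ2, hB2, hAl2, hyp⟩ := hP K V G k R B' y hy
    have hlen2 := hr2.length_eq
    simp only [List.length_append, List.length_cons, List.length_nil] at hlen2
    -- the combined sum
    have hsum : ∀ W, F W + F (W.map (pc Y (R y⁻¹))) =
        ∑ a : Fin (n + n), dst W (U.map (pc Y (R (Fin.append x (fun a => y * x a) a)))) := by
      intro W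
      rw [Fin.sum_univ_add, hF, hF]
      congr 1
      · apply Finset.sum_congr rfl
        intro a _
        rw [Fin.append_left]
      · apply Finset.sum_congr rfl
        intro a _
        rw [Fin.append_right, Gro_act_mul, ← Gro_dst R y (W.map (pc Y (R y⁻¹))), Gro_act_inv]
    obtain ⟨W', hW'⟩ : ∃ W', 2 * (F W' + F (W'.map (pc Y (R y⁻¹)))) ≤ 4 * v + n := by
      by_contra hc
      push Not at hc
      have h1 : ∀ W, (4 * v + n) / 2 + 1 ≤ ∑ a : Fin (n + n), dst W
          (U.map (pc Y (R (Fin.append x (fun a => y * x a) a)))) := by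
        intro W
        rw [← hsum W]
        have := hc W
        omega
      have h2 : Gro_P R B U (i + 1) (n + n) ((4 * v + n) / 2 + 1) := by
        refine ⟨J ++ J₂, B₂, [p] ++ T, Fin.append x (fun a => y * x a), ?_, hB2, hAl2, by omega,
          ?_, h1⟩
        · have h3 := hr2.context J T
          have h4 := hr.trans h3
          simpa using h4
        · intro a
          refine Fin.addCases (fun a => ?_) (fun a => ?_) a
          · rw [Fin.append_left]
            rcases hx a with h | h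
            · exact Or.inl h
            · exact Or.inr (SpQ.fc_mono (WExt.drop_left [p] T) _ h)
          · rw [Fin.append_right]
            right
            rcases hx a with h | h
            · rw [h, mul_one]
              exact SpQ.fc_mono (WExt.drop_right [p] T) _ hyp
            · have h3 := SpQ.fc_mul hyp h
              have e : (-1 : ZMod k) + -1 + 1 = -1 := by ring
              rw [e] at h3
              exact h3
      have h4 := hV2 _ h2
      omega
    have h1 : v ≤ F W' := hvF W'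
    have h2 : v ≤ F (W'.map (pc Y (R y⁻¹))) := hvF _
    have hW1 : W' ∈ S := by
      rw [hSm]
      omega
    have hW2 : W'.map (pc Y (R y⁻¹)) ∈ S := by
      rw [hSm]
      omega
    calc (sInf S).map (pc Y (R y)) ≤ (W'.map (pc Y (R y⁻¹))).map (pc Y (R y)) :=
          Submodule.map_mono (sInf_le hW2)
      _ = W' := Gro_act_inv R y W'
      _ ≤ sSup S := le_sSup hW1
  have hlB' : 10 * finrank K V ≤ B'.length := by omega
  obtain ⟨hT1, hT2⟩ := hT K V G k R B' hB' hAl' hlB'
  have hinv : ∀ f ∈ Fsp R (SL R B'), ∀ z ∈ sInf S, pc Y f z ∈ sSup S := by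
    intro f hf z hz
    unfold Fsp at hf
    induction hf using Submodule.span_induction with
    | mem f hf =>
      rcases hf with rfl | ⟨y, hy, rfl⟩
      · have e : pc Y (1 : Module.End K V) z = z := rfl
        rw [e]
        exact hZZ hz
      · exact hkey y hy (Submodule.mem_map_of_mem hz)
    | zero =>
      have e : pc Y (0 : Module.End K V) z = 0 := by
        show (0 : V →ₗ[K] V) ∘ₗ z = 0
        simp
      rw [e]
      exact Submodule.zero_mem _
    | add f g _ _ hf hg =>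
      have e : pc Y (f + g) z = pc Y f z + pc Y g z := by
        show (f + g) ∘ₗ z = f ∘ₗ z + g ∘ₗ z
        rw [LinearMap.add_comp]
      rw [e]
      exact Submodule.add_mem _ hf hg
    | smul c f _ hf =>
      have e : pc Y (c • f) z = c • pc Y f z := by
        show (c • f) ∘ₗ z = c • (f ∘ₗ z)
        rw [LinearMap.smul_comp]
      rw [e]
      exact Submodule.smul_mem _ c hf
  obtain ⟨j, hj1, hj2⟩ := hL K V Y (Fsp R (SL R B')) hT1 hT2 (sInf S) (sSup S) hZZ hinv (by omega)
  exact ⟨j, by omega, by omega⟩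

/-- **GRO** -/
theorem thm_Gro (hS : St_Sub) (hT : St_Tw2) (hL : St_Lin) (hP : St_Spr) : St_Gro := by
  intro K V Y G _ _ _ _ _ _ _ _ _ _ k R B U t hB hAl ht hBl hU
  classical
  -- the sum at `U`
  have hFU : ∀ (n : ℕ) (J B' T : List (Hd G k)) (x : Fin n → G), WReach B (J ++ B' ++ T) →
      (∀ h ∈ B', Good h) → Al R (SpQ.E B') = ⊤ → (∀ a, x a = 1 ∨ x a ∈ SpQ.fc T (-1)) →
      ∑ a, dst U (U.map (pc Y (R (x a)))) ≤ 2 * t * n := by
    intro n J B' T x h1 h2 h3 hx
    have h4 : ∀ a ∈ (Finset.univ : Finset (Fin n)), dst U (U.map (pc Y (R (x a)))) ≤ 2 * t := by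
      intro a _
      rcases hx a with h | h
      · rw [h, Gro_act_one]
        unfold dst
        rw [sup_idem, inf_idem]
        omega
      · exact Gro_dst_self R (x a) U t (hU _ (Gro_letter R B J B' T h1 h2 h3 (x a) h))
    have h5 := Finset.sum_le_card_nsmul _ _ _ h4
    rw [Finset.card_univ, Fintype.card_fin, smul_eq_mul] at h5
    rw [mul_comm]
    exact h5
  have hPb : ∀ i n v, Gro_P R B U i n v → v ≤ 2 * t * n := by
    rintro i n v ⟨J, B', T, x, h1, h2, h3, _, hx, hv⟩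
    exact (hv U).trans (hFU n J B' T x h1 h2 h3 hx)
  have hP0 : ∀ i n, Gro_P R B U i n 0 := by
    intro i n
    exact ⟨[], B, [], fun _ => 1, by simpa using WReach.refl B, hB, hAl, by omega,
      fun _ => Or.inl rfl, fun _ => Nat.zero_le _⟩
  -- the greatest values
  obtain ⟨Vf, hV1, hV2⟩ : ∃ Vf : ℕ → ℕ, (∀ i, Gro_P R B U i (2 ^ i) (Vf i)) ∧
      ∀ i v, Gro_P R B U i (2 ^ i) v → v ≤ Vf i := by
    refine ⟨fun i => Nat.findGreatest (fun v => Gro_P R B U i (2 ^ i) v) (2 * t * 2 ^ i), ?_, ?_⟩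
    · intro i
      exact Nat.findGreatest_spec (P := fun v => Gro_P R B U i (2 ^ i) v) (Nat.zero_le _) (hP0 i _)
    · intro i v h
      exact Nat.le_findGreatest (hPb i _ v h) h
  have hV3 : ∀ i, Vf i ≤ 2 * t * 2 ^ i := fun i => hPb i _ _ (hV1 i)
  obtain ⟨i, hi, hVi⟩ : ∃ i, i ≤ 8 * t ∧ 2 * Vf (i + 1) ≤ 4 * Vf i + 2 ^ i := by
    by_contra hc
    push Not at hc
    have h1 : ∀ i, i ≤ 8 * t + 1 → i * 2 ^ i ≤ 4 * Vf i := by
      intro i
      induction i with
      | zero => simp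
      | succ i ih =>
        intro h
        have h2 := ih (by omega)
        have h3 := hc i (by omega)
        have h4 : (i + 1) * 2 ^ (i + 1) = 2 * (i * 2 ^ i) + 2 * 2 ^ i := by ring
        rw [h4]
        omega
    have h2 := h1 (8 * t + 1) le_rfl
    have h3 := hV3 (8 * t + 1)
    have h4 : 0 < 2 ^ (8 * t + 1) := by positivity
    have h5 : (8 * t + 1) * 2 ^ (8 * t + 1) = 4 * (2 * t * 2 ^ (8 * t + 1)) + 2 ^ (8 * t + 1) := by
      ring
    omega
  refine Gro_core hS hT hL hP K V Y G k R B U t i (2 ^ i) (Vf i) ht hBl hi (by positivity) (hV3 i)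
    (hV1 i) (hV2 i) ?_
  intro v' hv'
  have h3 : 2 ^ (i + 1) = 2 ^ i + 2 ^ i := by ring
  have h4 := hV2 (i + 1) v' (by rw [h3]; exact hv')
  omega

end Pool.Agent.LGN
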