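import Pool.Agent.LGN.St

/-!
# Near-linear range: linear algebra (St_Lin)

Only the transitivity on vectors is used: evaluate at the vectors of a basis of `Y` one after the
other; every nonzero piece of `Z` has dimension at most `r`, the piece of `Z'` is then everything.
-/

set_option autoImplicit false

namespace Pool.Agent.LGN

open Module

section

variable {K V Y : Type} [Field K] [AddCommGroup V] [Module K V] [FiniteDimensional K V]
  [AddCommGroup Y] [Module K Y] [FiniteDimensional K Y]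

/-- evaluation at `y` -/
private def Lin_ev (y : Y) : (Y →ₗ[K] V) →ₗ[K] V where
  toFun z := z y
  map_add' _ _ := rfl
  map_smul' _ _ := rfl

private theorem Lin_rank {M : Type} [AddCommGroup M] [Module K M] [FiniteDimensional K M]
    (f : M →ₗ[K] V) (Z : Submodule K M) :
    finrank K ↥(Z ⊓ LinearMap.ker f) + finrank K ↥(Z.map f) = finrank K Z := by
  have h1 := LinearMap.finrank_range_add_finrank_ker (f.domRestrict Z)
  have h2 : LinearMap.range (f.domRestrict Z) = Z.map f := by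
    ext v
    simp [Submodule.mem_map]
  have h3 : finrank K ↥(LinearMap.ker (f.domRestrict Z)) = finrank K ↥(Z ⊓ LinearMap.ker f) := by
    have h4 : (LinearMap.ker (f.domRestrict Z)).map Z.subtype = Z ⊓ LinearMap.ker f := by
      ext v
      simp only [Submodule.mem_map, LinearMap.mem_ker, Submodule.mem_inf, Submodule.subtype_apply]
      constructor
      · rintro ⟨z, hz, rfl⟩
        exact ⟨z.2, hz⟩
      · rintro ⟨hv, hf⟩
        exact ⟨⟨v, hv⟩, hf, rfl⟩
    rw [← h4]
    exact (Submodule.finrank_map_subtype_eq Z _).symm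
  rw [h2, h3] at h1
  omega

/-- the elements of `Z` which vanish on the list -/
private def Lin_cut (Z : Submodule K (Y →ₗ[K] V)) : List Y → Submodule K (Y →ₗ[K] V)
  | [] => Z
  | y :: l => Lin_cut Z l ⊓ LinearMap.ker (Lin_ev y)

omit [FiniteDimensional K V] [FiniteDimensional K Y] in
private theorem Lin_mem (Z : Submodule K (Y →ₗ[K] V)) (l : List Y) (z : Y →ₗ[K] V) :
    z ∈ Lin_cut Z l ↔ z ∈ Z ∧ ∀ y ∈ l, z y = 0 := by
  induction l with
  | nil => simp [Lin_cut]
  | cons y l ih =>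
    rw [Lin_cut, Submodule.mem_inf, ih, LinearMap.mem_ker]
    constructor
    · rintro ⟨⟨h1, h2⟩, h3⟩
      refine ⟨h1, fun x hx => ?_⟩
      rcases List.mem_cons.1 hx with rfl | h
      · exact h3
      · exact h2 x h
    · rintro ⟨h1, h2⟩
      exact ⟨⟨h1, fun x hx => h2 x (List.mem_cons_of_mem _ hx)⟩, h2 y List.mem_cons_self⟩

private theorem Lin_step (A : Submodule K (Module.End K V))
    (hA : ∀ v : V, v ≠ 0 → ∀ u : V, ∃ f ∈ A, f v = u) (Z Z' : Submodule K (Y →ₗ[K] V))
    (hAZ : ∀ f ∈ A, ∀ z ∈ Z, pc Y f z ∈ Z') (l : List Y) :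
    ∃ j : ℕ, finrank K Z ≤ finrank K ↥(Lin_cut Z l) + finrank K V * j ∧
      finrank K ↥(Lin_cut Z' l) + finrank K V * j ≤ finrank K Z' := by
  induction l with
  | nil => exact ⟨0, by rw [mul_zero, add_zero]; exact le_rfl, by
      rw [mul_zero, add_zero]; exact le_rfl⟩
  | cons y l ih =>
    obtain ⟨j, h1, h2⟩ := ih
    have e1 := Lin_rank (Lin_ev y) (Lin_cut Z l)
    have e2 := Lin_rank (Lin_ev y) (Lin_cut Z' l)
    by_cases h : (Lin_cut Z l).map (Lin_ev y) = ⊥
    · refine ⟨j, ?_, ?_⟩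
      · rw [h, finrank_bot] at e1
        show _ ≤ finrank K ↥(Lin_cut Z l ⊓ LinearMap.ker (Lin_ev y)) + _
        omega
      · show finrank K ↥(Lin_cut Z' l ⊓ LinearMap.ker (Lin_ev y)) + _ ≤ _
        omega
    · have h3 : (Lin_cut Z' l).map (Lin_ev y) = ⊤ := by
        rw [Submodule.eq_bot_iff] at h
        push Not at h
        obtain ⟨v, hv, hv0⟩ := h
        obtain ⟨z, hz, rfl⟩ := Submodule.mem_map.1 hv
        rw [eq_top_iff]
        intro u _
        obtain ⟨f, hf, hfu⟩ := hA _ hv0 u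
        obtain ⟨hz1, hz2⟩ := (Lin_mem Z l z).1 hz
        refine Submodule.mem_map.2 ⟨pc Y f z, (Lin_mem Z' l _).2 ⟨hAZ f hf z hz1, ?_⟩, hfu⟩
        intro x hx
        show f (z x) = 0
        rw [hz2 x hx, map_zero]
      have h4 : finrank K ↥((Lin_cut Z l).map (Lin_ev y)) ≤ finrank K V :=
        Submodule.finrank_le _
      rw [h3, finrank_top] at e2
      refine ⟨j + 1, ?_, ?_⟩
      · show _ ≤ finrank K ↥(Lin_cut Z l ⊓ LinearMap.ker (Lin_ev y)) + _
        rw [mul_add, mul_one]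
        omega
      · show finrank K ↥(Lin_cut Z' l ⊓ LinearMap.ker (Lin_ev y)) + _ ≤ _
        rw [mul_add, mul_one]
        omega

end

/-- `St_Lin` without the 2-transitivity, without `Z ≤ Z'` and without the bound for `dim Z'`. -/
theorem Lin_strong {K V Y : Type} [Field K] [AddCommGroup V] [Module K V]
    [FiniteDimensional K V] [AddCommGroup Y] [Module K Y] [FiniteDimensional K Y]
    (A : Submodule K (Module.End K V)) (hA : ∀ v : V, v ≠ 0 → ∀ u : V, ∃ f ∈ A, f v = u)
    (Z Z' : Submodule K (Y →ₗ[K] V)) (hAZ : ∀ f ∈ A, ∀ z ∈ Z, pc Y f z ∈ Z') :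
    ∃ j : ℕ, finrank K Z ≤ finrank K V * j ∧ finrank K V * j ≤ finrank K Z' := by
  obtain ⟨j, h1, h2⟩ := Lin_step A hA Z Z' hAZ (List.ofFn (Module.finBasis K Y))
  refine ⟨j, ?_, by omega⟩
  have h3 : Lin_cut Z (List.ofFn (Module.finBasis K Y)) = ⊥ := by
    rw [Submodule.eq_bot_iff]
    intro z hz
    refine (Module.finBasis K Y).ext fun i => ?_
    exact ((Lin_mem _ _ _).1 hz).2 _ (List.mem_ofFn.2 ⟨i, rfl⟩)
  rw [h3, finrank_bot] at h1
  omega

theorem thm_Lin : St_Lin := by
  intro K V Y _ _ _ _ _ _ _ A hA _ Z Z' _ hAZ _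
  exact Lin_strong A hA Z Z' hAZ

end Pool.Agent.LGN
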