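import Pool.Agent.LGN.St
import Pool.Agent.EKL.Lst

/-!
# A long list of killed handles contains one which is not needed for the algebra

Helper33, for MP_0707f5_ag.  `St_Nof` and `St_Nog`.
-/

set_option autoImplicit false

namespace Pool.Agent.LGN

open Module
open SpQ (Hd)
open LGC (It GI hl Kl)

/-- stable subspaces of the full algebra -/
theorem Nof_irr {K V G : Type} [Field K] [AddCommGroup V] [Module K V] [Group G]
    (R : G →* Module.End K V) (H : Subgroup G) (h : Al R H = ⊤) (W : Submodule K V)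
    (hW : ∀ x ∈ H, ∀ v ∈ W, R x v ∈ W) : W = ⊥ ∨ W = ⊤ := by
  by_cases h0 : W = ⊥
  · exact Or.inl h0
  right
  obtain ⟨v, hv, hv0⟩ := Submodule.exists_mem_ne_zero_of_ne_bot h0
  have h1 : Al R H ≤ EKL.stb W := by
    unfold Al
    rw [Algebra.adjoin_le_iff]
    rintro _ ⟨x, hx, rfl⟩
    exact hW x hx
  rw [h] at h1
  rw [eq_top_iff]
  rintro u -
  obtain ⟨f, hf⟩ : ∃ f : Module.End K V, f v = u := by
    have : Nontrivial V := ⟨v, 0, hv0⟩
    exact IsSimpleModule.toSpanSingleton_surjective (Module.End K V) hv0 u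
  rw [← hf]
  exact h1 (Algebra.mem_top (x := f)) v hv

/-- the pair algebra -/
theorem Nof_al2 {K V G : Type} [Field K] [AddCommGroup V] [Module K V] [Group G]
    (R₁ R₂ : G →* Module.End K V) (H : Subgroup G) :
    EKL.alg K (R₁.prod R₂) H = Al2 R₁ R₂ H := rfl

/-- **NOF**. -/
theorem thm_Nof : St_Nof := by
  intro K V Γ _ _ _ _ _ _ _ k N _ R₁ R₂ X B hB h1 h2 hlen
  have hd : 1 ≤ finrank K V := Module.finrank_pos
  obtain ⟨s, p, t, e, h3⟩ := EKL.spare N (R₁.prod R₂) X B hB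
    (fun W hW => Nof_irr R₁ _ h1 W fun x hx v hv => hW x (Subgroup.mem_subgroupOf.1 hx) v hv)
    (fun W hW => Nof_irr R₂ _ h2 W fun x hx v hv => hW x (Subgroup.mem_subgroupOf.1 hx) v hv)
    (by omega)
  exact ⟨s, p, t, e, h3⟩

theorem Nof_fst {K V G : Type} [Field K] [AddCommGroup V] [Module K V] [Group G]
    (R₁ R₂ : G →* Module.End K V) (H : Subgroup G) :
    (Al2 R₁ R₂ H).map (AlgHom.fst K (Module.End K V) (Module.End K V)) = Al R₁ H := by
  unfold Al2 Al
  rw [AlgHom.map_adjoin, ← Set.image_comp]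
  rfl

theorem Nof_snd {K V G : Type} [Field K] [AddCommGroup V] [Module K V] [Group G]
    (R₁ R₂ : G →* Module.End K V) (H : Subgroup G) :
    (Al2 R₁ R₂ H).map (AlgHom.snd K (Module.End K V) (Module.End K V)) = Al R₂ H := by
  unfold Al2 Al
  rw [AlgHom.map_adjoin, ← Set.image_comp]
  rfl

/-- **NOG**. -/
theorem thm_Nog : St_Nog := by
  intro K V G _ _ _ _ _ _ _ k R B h hlen
  have hconv : ∀ C : List (Hd G k),
      Al (R.comp (⊤ : Subgroup G).subtype) ((GI ([] ++ hl C)).subgroupOf ⊤) = Al R (SpQ.E C) := by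
    intro C
    unfold Al
    congr 1
    ext f
    constructor
    · rintro ⟨x, hx, rfl⟩
      refine ⟨x, ?_, rfl⟩
      have h1 : (x : G) ∈ GI ([] ++ hl C) := hx
      rw [List.nil_append, LGC.GI_hl] at h1
      exact h1
    · rintro ⟨x, hx, rfl⟩
      refine ⟨⟨x, Subgroup.mem_top x⟩, ?_, rfl⟩
      show x ∈ GI ([] ++ hl C)
      rw [List.nil_append, LGC.GI_hl]
      exact hx
  obtain ⟨s, p, t, e, h1⟩ := thm_Nof K V G k (⊤ : Subgroup G)
    (R.comp (⊤ : Subgroup G).subtype) (R.comp (⊤ : Subgroup G).subtype) [] B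
    (fun h _ => ⟨Subgroup.mem_top _, Subgroup.mem_top _⟩) ((hconv B).trans h)
    ((hconv B).trans h) hlen
  refine ⟨s, p, t, e, ?_⟩
  have h2 := congrArg (fun A => A.map (AlgHom.fst K (Module.End K V) (Module.End K V))) h1
  simp only [Nof_fst] at h2
  rw [hconv, hconv] at h2
  rw [h2, h]

end Pool.Agent.LGN
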