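import Pool.Agent.LGN.St
import Pool.Agent.LGC.Bas
import Pool.Agent.LGP.WMain
import Pool.Agent.PRS.HER

/-!
# LGN / Pr3: application to representations of `N`

Helper21, for MP_0707f5_ag.
-/

set_option autoImplicit false

namespace Pool.Agent.LGN

open Module Matrix Helper12.Sc
open SpQ (Hd WStep WReach WExt Good bd cj1 IsSpinStructure)
open LGC (It GI hl IReach Kl cls istd GI_append GI_hl mem_GI hl_append icj)
open LGP (F ga gb gx x0 MC NS MR stdL stdM dstd wty prj cyc)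

/-- a representation by matrices as a representation by endomorphisms -/
noncomputable def toE {G : Type} [Group G] {r : ℕ} (ρ : G →* GL (Fin r) ℂ) :
    G →* Module.End ℂ (Fin r → ℂ) where
  toFun x := Matrix.toLin' (ρ x : Matrix (Fin r) (Fin r) ℂ)
  map_one' := by
    rw [map_one, Units.val_one, Matrix.toLin'_one]
    rfl
  map_mul' x y := by
    rw [map_mul, Units.val_mul, Matrix.toLin'_mul]
    rfl

theorem toE_trace {G : Type} [Group G] {r : ℕ} (ρ : G →* GL (Fin r) ℂ) (x : G) :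
    LinearMap.trace ℂ (Fin r → ℂ) (toE ρ x) = (ρ x : Matrix (Fin r) (Fin r) ℂ).trace :=
  Matrix.trace_toLin'_eq _

theorem Al_toE {G : Type} [Group G] {r : ℕ} (hr : 0 < r) (ρ : G →* GL (Fin r) ℂ)
    (h : Pool.Agent.HZ.Irr ρ.range) : Al (toE ρ) ⊤ = ⊤ := by
  have hspan : Submodule.span ℂ (Set.range fun g => (ρ g : Matrix (Fin r) (Fin r) ℂ)) = ⊤ := by
    rw [← Pool.Agent.PRS.span_irr hr ρ.range h]
    congr 1
    ext M
    constructor
    · rintro ⟨g, rfl⟩
      exact ⟨ρ g, ⟨g, rfl⟩, rfl⟩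
    · rintro ⟨_, ⟨g, rfl⟩, rfl⟩
      exact ⟨g, rfl⟩
  rw [eq_top_iff]
  intro f _
  obtain ⟨M, rfl⟩ := (Matrix.toLin' (R := ℂ) (m := Fin r) (n := Fin r)).surjective f
  have hM : M ∈ Submodule.span ℂ (Set.range fun g => (ρ g : Matrix (Fin r) (Fin r) ℂ)) := by
    rw [hspan]
    trivial
  refine Submodule.span_induction (p := fun M _ => Matrix.toLin' M ∈ Al (toE ρ) ⊤) ?_ ?_ ?_ ?_ hM
  · rintro _ ⟨g, rfl⟩
    exact Algebra.subset_adjoin ⟨g, Subgroup.mem_top _, rfl⟩
  · rw [map_zero]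
    exact Subalgebra.zero_mem _
  · intro a b _ _ ha hb
    rw [map_add]
    exact Subalgebra.add_mem _ ha hb
  · intro c a _ ha
    rw [map_smul]
    exact Subalgebra.smul_mem _ ha c

private theorem Pr3_GI {g n k : ℕ} (τ : Fin g → ZMod k × ZMod k) :
    GI (istd (n := n) τ) = ⊤ := by
  rw [eq_top_iff, ← LGP.closure_dstd (n := n) τ]
  unfold istd
  rw [GI_append, GI_hl]
  refine sup_le_sup_left ?_ _
  rw [Subgroup.closure_le]
  intro y hy
  exact mem_GI (i := Sum.inr y) (List.mem_map.2 ⟨y, hy, rfl⟩) rfl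

theorem thm_Pr3 (hTwo : St_Two) : St_Pr3 := by
  intro g n k r h N _ hh hkill τ ρ₁ ρ₂ h₁ h₂ hb hT x
  rcases Nat.eq_zero_or_pos r with hr | hr
  · subst hr
    rw [Matrix.trace, Matrix.trace, Finset.univ_eq_empty, Finset.sum_empty, Finset.sum_empty]
  have : Nontrivial (Fin r → ℂ) := by
    have : Nonempty (Fin r) := ⟨⟨0, hr⟩⟩
    infer_instance
  have hlen : (dstd (n := n) τ).length = g := by simp [dstd]
  obtain ⟨B₀, hB₀⟩ : ∃ B, B = (dstd (n := n) τ).take h := ⟨_, rfl⟩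
  obtain ⟨C₀, hC₀⟩ : ∃ C, C = (dstd (n := n) τ).drop h := ⟨_, rfl⟩
  have hBC : dstd (n := n) τ = B₀ ++ C₀ := by
    rw [hB₀, hC₀, List.take_append_drop]
  have hBlen : B₀.length = h := by
    rw [hB₀, List.length_take, hlen]
    omega
  have hBK : ∀ p ∈ B₀, Kl N p := by
    intro p hp
    rw [hB₀, List.mem_take_iff_getElem] at hp
    obtain ⟨j, hj, rfl⟩ := hp
    have hj' : j < g := by omega
    have h1 := hkill ⟨j, hj'⟩ (by simp only; omega)
    unfold Kl dstd
    simpa using h1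
  have hist : istd (n := n) τ = hl B₀ ++ (hl C₀ ++ (stdM g n).map Sum.inr) := by
    unfold istd
    rw [hBC, hl_append, List.append_assoc]
  obtain ⟨u, -, hu⟩ := IReach.move_block (hl B₀) (hl C₀ ++ (stdM g n).map Sum.inr)
  rw [← hist] at hu
  have hGI : GI (List.map (icj u) (hl C₀ ++ (stdM g n).map Sum.inr) ++ hl B₀) = ⊤ := by
    rw [hu.GI_eq]
    exact Pr3_GI τ
  have key := hTwo ℂ (Fin r → ℂ) (F g n) k N (toE ρ₁) (toE ρ₂) _ B₀ hBK hGI
    (Al_toE hr ρ₁ h₁) (Al_toE hr ρ₂ h₂)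
    (by rw [Module.finrank_fin_fun, hBlen]; exact hb) (by
      intro X' P hrr hP x hx hxP
      rw [toE_trace, toE_trace]
      exact hT X' P (hu.trans hrr) hP x hx hxP) x
  rw [toE_trace, toE_trace] at key
  exact key

end Pool.Agent.LGN
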