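import Pool.Agent.LGN.St

/-!
# Near-linear range, module Spn: the letters of a full block span everything
-/

set_option autoImplicit false

namespace Pool.Agent.LGN

open Module
open SpQ (Hd WStep WReach WExt Good)
open LGC (Kl)

section spw

variable {K V Y G : Type} [Field K] [AddCommGroup V] [Module K V] [AddCommGroup Y] [Module K Y]
  [Group G] {k : ℕ}

private theorem Spn_pc_mul (R : G →* Module.End K V) (x z : G) (w : Y →ₗ[K] V) :
    pc Y (R x) (pc Y (R z) w) = pc Y (R (x * z)) w := by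
  rw [map_mul]
  rfl

private theorem Spn_mono (R : G →* Module.End K V) (w : Y →ₗ[K] V) {P Q : List (Hd G k)}
    (h : WExt Q P) : Spw R w P ≤ Spw R w Q := by
  refine Submodule.span_mono (Set.insert_subset_insert ?_)
  exact Set.image_mono (SpQ.fc_mono h (-1))

private theorem Spn_grow (R : G →* Module.End K V) (w : Y →ₗ[K] V) (p : Hd G k)
    (P : List (Hd G k)) {x : G} (hx : x ∈ SpQ.fc [p] (-1)) :
    Spw R w P ⊔ (Spw R w P).map (pc Y (R x)) ≤ Spw R w ([p] ++ P) := by
  refine sup_le (Spn_mono R w (WExt.drop_left [p] P)) ?_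
  rw [Submodule.map_le_iff_le_comap]
  refine Submodule.span_le.2 ?_
  rintro z (rfl | ⟨t, ht, rfl⟩)
  · refine Submodule.subset_span (Or.inr ⟨x, ?_, rfl⟩)
    exact SpQ.fc_mono (WExt.drop_right [p] P) (-1) hx
  · show pc Y (R x) (pc Y (R t) w) ∈ Spw R w ([p] ++ P)
    rw [Spn_pc_mul]
    refine Submodule.subset_span (Or.inr ⟨x * t, ?_, rfl⟩)
    have h1 := SpQ.fc_mul hx ht
    have e : (-1 : ZMod k) + -1 + 1 = -1 := by ring
    rw [e] at h1
    exact h1

end spw

/-- a state of level `i` -/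
private def Spn_state {K V G : Type} [Field K] [AddCommGroup V] [Module K V] [Group G] {k : ℕ}
    (R : G →* Module.End K V) (B : List (Hd G k)) (i : ℕ) (P : List (Hd G k)) : Prop :=
  ∃ J B' : List (Hd G k), WReach B (J ++ B' ++ P) ∧ (∀ h ∈ B', Good h) ∧
    Al R (SpQ.E B') = ⊤ ∧ B.length ≤ B'.length + 2 * i

theorem thm_Spn (hS : St_Stp) (hP : St_Spr) (hA : St_Ari) : St_Spn := by
  intro K V Y G _ _ _ _ _ _ _ _ _ _ k R w B hw hB hAl hlen
  have hM : finrank K (Y →ₗ[K] V) = finrank K V * finrank K Y := by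
    rw [Module.finrank_linearMap, mul_comm]
  rcases Nat.eq_zero_or_pos (finrank K Y) with hy | hy
  · apply Submodule.eq_top_of_finrank_eq
    have h1 := Submodule.finrank_le (Spw R w B)
    rw [hM, hy, mul_zero] at h1
    rw [hM, hy, mul_zero]
    omega
  have hr : 0 < finrank K V := Module.finrank_pos
  have hnt : Nontrivial Y := Module.nontrivial_of_finrank_pos (R := K) hy
  -- the greatest dimensions
  let D : ℕ → Set ℕ := fun i => {d | ∃ P, Spn_state R B i P ∧ d = finrank K (Spw R w P)}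
  have hbdd : ∀ i, BddAbove (D i) := fun i => ⟨finrank K (Y →ₗ[K] V), by
    rintro d ⟨P, _, rfl⟩
    exact Submodule.finrank_le _⟩
  have h0 : ∀ i, Spn_state R B i [] := fun i =>
    ⟨[], B, by simpa using WReach.refl B, hB, hAl, by omega⟩
  have hne : ∀ i, (D i).Nonempty := fun i => ⟨_, [], h0 i, rfl⟩
  let u : ℕ → ℕ := fun i => sSup (D i)
  have hmem : ∀ i, u i ∈ D i := fun i => Nat.sSup_mem (hne i) (hbdd i)
  have hle : ∀ i P, Spn_state R B i P → finrank K (Spw R w P) ≤ u i := fun i P hPi =>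
    le_csSup (hbdd i) ⟨P, hPi, rfl⟩
  have hwP : ∀ P : List (Hd G k), w ∈ Spw R w P := fun P => Submodule.subset_span (Or.inl rfl)
  have hu0 : 1 ≤ u 0 := by
    refine le_trans ?_ (hle 0 [] (h0 0))
    rw [Submodule.one_le_finrank_iff]
    intro h
    have h1 := hwP ([] : List (Hd G k))
    rw [h, Submodule.mem_bot] at h1
    obtain ⟨a, b, hab⟩ := exists_pair_ne Y
    apply hab
    apply hw
    rw [h1]
    rfl
  have hmono : ∀ i, u i ≤ u (i + 1) := by
    intro i
    obtain ⟨P, ⟨J, B', h1, h2, h3, h4⟩, h5⟩ := hmem i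
    rw [h5]
    exact hle (i + 1) P ⟨J, B', h1, h2, h3, by omega⟩
  have hstep : ∀ i < finrank K Y * (9 * Nat.log 2 (finrank K V) + 1),
      u i < finrank K V * finrank K Y → ∀ δ : ℕ,
      (∀ j : ℕ, finrank K V * j + δ ≤ u i ∨ u i + δ ≤ finrank K V * j) →
      u i + 1 ≤ u (i + 1) ∧ 6 * u i + δ ≤ 6 * u (i + 1) := by
    intro i hi hui δ hδ
    obtain ⟨P, ⟨J, B', h1, h2, h3, h4⟩, h5⟩ := hmem i
    rw [h5] at hδ hui ⊢
    have hU : Spw R w P ≠ ⊤ := by
      intro h
      rw [h, finrank_top, hM] at hui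
      exact lt_irrefl _ hui
    obtain ⟨x, hx, h6, h7⟩ := hS K V Y G k R B' (Spw R w P) w δ h2 h3 (by omega) hw (hwP P) hU hδ
    obtain ⟨J₂, B₂, p, q1, q2, q3, q4, q5⟩ := hP K V G k R B' x hx
    have hlen2 := q1.length_eq
    rw [List.length_append, List.length_append, List.length_singleton] at hlen2
    have hst : Spn_state R B (i + 1) ([p] ++ P) := by
      refine ⟨J ++ J₂, B₂, ?_, q3, q4, by omega⟩
      have e1 := (q1.left J).right P
      have e2 : J ++ (J₂ ++ B₂ ++ [p]) ++ P = J ++ J₂ ++ B₂ ++ ([p] ++ P) := by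
        simp only [List.append_assoc]
      rw [e2] at e1
      exact h1.trans e1
    have h8 := hle (i + 1) _ hst
    have h9 := Submodule.finrank_mono (Spn_grow R w p P q5)
    exact ⟨h6.trans (h9.trans h8), h7.trans (Nat.mul_le_mul_left 6 (h9.trans h8))⟩
  have hfin := hA (finrank K V) (finrank K Y) u hr hu0 hmono fun i hi hui =>
    ⟨(hstep i hi hui 0 fun j => by
      rw [add_zero, add_zero]
      exact le_total _ _).1, fun δ hδ => (hstep i hi hui δ hδ).2⟩
  obtain ⟨P, ⟨J, B', h1, h2, h3, h4⟩, h5⟩ := hmem (finrank K Y * (9 * Nat.log 2 (finrank K V) + 1))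
  rw [h5, ← hM] at hfin
  have htop : Spw R w P = ⊤ :=
    Submodule.eq_top_of_finrank_eq (le_antisymm (Submodule.finrank_le _) hfin)
  rw [eq_top_iff, ← htop]
  exact Spn_mono R w ⟨J ++ B', h1⟩

private theorem Spn_E_map {G H : Type} [Group G] [Group H] {k : ℕ} (f : G →* H)
    (X : List (Hd G k)) : SpQ.E (SpQ.mapH f X) = (SpQ.E X).map f := by
  unfold SpQ.E
  rw [MonoidHom.map_closure]
  congr 1
  ext z
  constructor
  · rintro ⟨h, hh, hz⟩
    obtain ⟨h', hh', rfl⟩ := List.mem_map.1 hh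
    rcases hz with rfl | rfl
    · exact ⟨h'.1.1, ⟨h', hh', Or.inl rfl⟩, rfl⟩
    · exact ⟨h'.1.2, ⟨h', hh', Or.inr rfl⟩, rfl⟩
  · rintro ⟨z', ⟨h', hh', hz'⟩, rfl⟩
    refine ⟨((f h'.1.1, f h'.1.2), h'.2), List.mem_map.2 ⟨h', hh', rfl⟩, ?_⟩
    rcases hz' with rfl | rfl
    · exact Or.inl rfl
    · exact Or.inr rfl

private theorem Spn_lift {Γ : Type} [Group Γ] {k : ℕ} (N : Subgroup Γ) (P : List (Hd Γ k))
    (h : ∀ p ∈ P, Kl N p) : ∃ P' : List (Hd N k), SpQ.mapH N.subtype P' = P := by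
  induction P with
  | nil => exact ⟨[], rfl⟩
  | cons p P ih =>
    obtain ⟨P', hP'⟩ := ih fun q hq => h q (List.mem_cons_of_mem _ hq)
    have hp := h p (List.mem_cons_self ..)
    refine ⟨((⟨p.1.1, hp.1⟩, ⟨p.1.2, hp.2⟩), p.2) :: P', ?_⟩
    show _ :: SpQ.mapH N.subtype P' = _
    rw [hP']
    rfl

theorem thm_Spx (h : St_Spn) : St_Spx := by
  intro K V Γ _ _ _ _ _ _ _ k N R P hG hK hAl hlen
  obtain ⟨P', rfl⟩ := Spn_lift N P hK
  have hE : (SpQ.E (SpQ.mapH N.subtype P')).subgroupOf N = SpQ.E P' := by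
    rw [Spn_E_map]
    exact Subgroup.comap_map_eq_self_of_injective N.subtype_injective _
  rw [hE] at hAl
  have hG' : ∀ h ∈ P', Good h := by
    intro p hp
    exact hG _ (List.mem_map.2 ⟨p, hp, rfl⟩)
  have hlen' : (SpQ.mapH N.subtype P').length = P'.length := by
    unfold SpQ.mapH
    exact List.length_map _
  rw [hlen'] at hlen
  have h1 := h K V V N k R LinearMap.id P' Function.injective_id hG' hAl hlen
  rw [eq_top_iff, ← h1]
  refine Submodule.span_mono ?_
  rintro z (rfl | ⟨x, hx, rfl⟩)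
  · exact Or.inl rfl
  · refine Or.inr ⟨x, ?_, ?_⟩
    · exact SpQ.fc_map N.subtype hx
    · rfl

end Pool.Agent.LGN
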