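import Pool.Agent.LGN.St

/-!
# Near-linear range: one growth step (STP)

Proof of `St_Stp` from `St_Gro` and `St_Alw`, for MP_0707f5_ag.
-/

set_option autoImplicit false

namespace Pool.Agent.LGN

open Module
open SpQ (Hd WStep WReach WExt Good bd cj1)

section
variable {K V Y G : Type} [Field K] [AddCommGroup V] [Module K V] [AddCommGroup Y] [Module K Y]
  [Group G]

private theorem Stp_pc_apply (f : Module.End K V) (z : Y →ₗ[K] V) : pc Y f z = f ∘ₗ z := rfl

/-- the representation `x ↦ pc Y (R x)` -/
private def Stp_rep (Y : Type) [AddCommGroup Y] [Module K Y] (R : G →* Module.End K V) :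
    G →* Module.End K (Y →ₗ[K] V) where
  toFun x := pc Y (R x)
  map_one' := by
    ext z y
    rw [Stp_pc_apply, map_one]
    rfl
  map_mul' a b := by
    ext z y
    rw [Stp_pc_apply, map_mul]
    rfl

private theorem Stp_rep_apply (R : G →* Module.End K V) (x : G) (z : Y →ₗ[K] V) :
    Stp_rep Y R x z = pc Y (R x) z := rfl

/-- a subspace which is stable under `R x`, `x ∈ H`, is stable under the algebra -/
private theorem Stp_stable (R : G →* Module.End K V) (H : Subgroup G)
    (U : Submodule K (Y →ₗ[K] V)) (hH : ∀ x ∈ H, ∀ z ∈ U, pc Y (R x) z ∈ U)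
    (f : Module.End K V) (hf : f ∈ Al R H) : ∀ z ∈ U, pc Y f z ∈ U := by
  refine Algebra.adjoin_induction (p := fun f _ => ∀ z ∈ U, pc Y f z ∈ U) ?_ ?_ ?_ ?_ hf
  · rintro _ ⟨x, hx, rfl⟩ z hz
    exact hH x hx z hz
  · intro c z hz
    have h1 : pc Y (algebraMap K (Module.End K V) c) z = c • z := by
      ext y
      rfl
    rw [h1]
    exact U.smul_mem c hz
  · intro a b _ _ ha hb z hz
    have h1 : pc Y (a + b) z = pc Y a z + pc Y b z := by
      ext y
      rfl
    rw [h1]
    exact U.add_mem (ha z hz) (hb z hz)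
  · intro a b _ _ ha hb z hz
    have h1 : pc Y (a * b) z = pc Y a (pc Y b z) := by
      ext y
      rfl
    rw [h1]
    exact ha _ (hb z hz)

end

theorem thm_Stp (hG : St_Gro) (hA : St_Alw) : St_Stp := by
  intro K V Y G _ _ _ _ _ _ _ _ _ _ k R B U w δ hgood hAl hlen hw hwU hU hδ
  set r := finrank K V with hr
  set u := finrank K U with hu
  have hr0 : 0 < r := Module.finrank_pos
  -- it is enough to find `x` with the growth
  rcases Nat.eq_zero_or_pos δ with h0 | hpos
  · by_contra hcon
    push Not at hcon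
    have hst : ∀ x ∈ SL R B, x ∈ LGP.stb (Stp_rep Y R) U := by
      intro x hx z hz
      have h1 : ¬ (u + 1 ≤ finrank K ↥(U ⊔ U.map (pc Y (R x)))) := by
        intro h
        have h2 := hcon x hx h
        omega
      have h2 : U = U ⊔ U.map (pc Y (R x)) :=
        Submodule.eq_of_le_of_finrank_le le_sup_left (by rw [← hu]; omega)
      have h3 : U.map (pc Y (R x)) ≤ U := by
        conv_rhs => rw [h2]
        exact le_sup_right
      exact h3 (Submodule.mem_map_of_mem hz)
    have hE : SpQ.E B ≤ LGP.stb (Stp_rep Y R) U :=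
      hA K V G k R B _ hgood hAl (by omega) hst
    have hall : ∀ f : Module.End K V, ∀ z ∈ U, pc Y f z ∈ U := by
      intro f
      exact Stp_stable R (SpQ.E B) U (fun x hx z hz => hE hx z hz) f (by rw [hAl]; trivial)
    apply hU
    rw [eq_top_iff]
    intro z _
    obtain ⟨g, hg⟩ := LinearMap.exists_leftInverse_of_injective w
      (LinearMap.ker_eq_bot.2 hw)
    have h1 : pc Y (z ∘ₗ g) w = z := by
      rw [Stp_pc_apply, LinearMap.comp_assoc, hg, LinearMap.comp_id]
    rw [← h1]
    exact hall _ w hwU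
  · have h2δ : 2 * δ ≤ r := by
      have h1 : r * (u / r) ≤ u := Nat.mul_div_le u r
      have h2 : u < r * (u / r + 1) := Nat.lt_mul_div_succ u hr0
      have h3 := hδ (u / r)
      have h4 := hδ (u / r + 1)
      have h5 : r * (u / r + 1) = r * (u / r) + r := by ring
      rw [h5] at h2 h4
      omega
    have ht : 6 * ((δ - 1) / 6) ≤ δ - 1 := Nat.mul_div_le _ _
    have ht' : δ - 1 < 6 * ((δ - 1) / 6) + 6 := by omega
    set t := (δ - 1) / 6 with htdef
    by_contra hcon
    push Not at hcon
    have hall : ∀ x ∈ SL R B, finrank K ↥(U ⊔ U.map (pc Y (R x))) ≤ u + t := by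
      intro x hx
      by_contra h
      have h1 := hcon x hx (by omega)
      omega
    obtain ⟨j, hj1, hj2⟩ := hG K V Y G k R B U t hgood hAl (by omega) hlen hall
    rw [← hr, ← hu] at hj1 hj2
    have := hδ j
    omega

end Pool.Agent.LGN
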