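import Pool.Agent.LGN.St
import Pool.Agent.SpQ.Greedy

/-!
# Near-linear range: TW2, the spare letters act 2-transitively
-/

set_option autoImplicit false

namespace Pool.Agent.LGN

open Module
open SpQ (Hd WStep WReach WExt Good bd cj1)
open LGP (stb)

section
variable {K V U G : Type} [Field K] [AddCommGroup V] [Module K V] [AddCommGroup U] [Module K U]
  [Group G] {k : ℕ}

/-- the span of `z` and of its images under the letters of `P` -/
private def Tw2_Sp (R : G →* Module.End K U) (z : U) (P : List (Hd G k)) : Submodule K U :=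
  Submodule.span K (insert z ((fun x => R x z) '' SpQ.fc P (-1)))

private theorem Tw2_self (R : G →* Module.End K U) (z : U) (P : List (Hd G k)) :
    z ∈ Tw2_Sp R z P := Submodule.subset_span (Set.mem_insert _ _)

private theorem Tw2_mono {R : G →* Module.End K U} {z : U} {P P' : List (Hd G k)}
    (h : WExt P' P) : Tw2_Sp R z P ≤ Tw2_Sp R z P' :=
  Submodule.span_mono (Set.insert_subset_insert (Set.image_mono (SpQ.fc_mono h (-1))))

private theorem Tw2_main (hA : LGC.St_All) (hN : St_Nog) [IsAlgClosed K] [FiniteDimensional K V]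
    [Nontrivial V] [FiniteDimensional K U] (R : G →* Module.End K V)
    (Φ : Module.End K V →ₐ[K] Module.End K U) (hU : finrank K U ≤ 2 * finrank K V) (z : U)
    (htr : ∀ u : U, ∃ f : Module.End K V, Φ f z = u) (B : List (Hd G k))
    (hgood : ∀ h ∈ B, Good h) (hfull : Al R (SpQ.E B) = ⊤) (hlen : 10 * finrank K V ≤ B.length) :
    ∀ u : U, ∃ f ∈ Fsp R (SL R B), Φ f z = u := by
  by_cases hD : finrank K U = 0
  · have hsub : Subsingleton U := finrank_zero_iff.1 hD
    intro u
    exact ⟨0, Submodule.zero_mem _, Subsingleton.elim _ _⟩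
  have hV : 0 < finrank K V := finrank_pos
  set ρ : G →* Module.End K U := (Φ : Module.End K V →* Module.End K U).comp R with hρ
  have hst0 : ∀ (H : Subgroup G) (S : Submodule K U), Al R H = ⊤ → z ∈ S → H ≤ stb ρ S →
      S = ⊤ := by
    intro H S hH hz hs
    let A : Subalgebra K (Module.End K V) :=
      { carrier := {f | ∀ s ∈ S, Φ f s ∈ S}
        mul_mem' := by
          intro a b ha hb s hs
          rw [map_mul]
          exact ha _ (hb s hs)
        add_mem' := by
          intro a b ha hb s hs
          rw [map_add]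
          exact S.add_mem (ha s hs) (hb s hs)
        algebraMap_mem' := by
          intro c s hs
          rw [AlgHom.commutes, Module.algebraMap_end_apply]
          exact S.smul_mem c hs }
    have hA' : Al R H ≤ A := by
      unfold Al
      rw [Algebra.adjoin_le_iff]
      rintro _ ⟨x, hx, rfl⟩
      exact hs hx
    rw [hH] at hA'
    rw [eq_top_iff]
    intro u _
    obtain ⟨f, hf⟩ := htr u
    rw [← hf]
    exact hA' (Algebra.mem_top : f ∈ (⊤ : Subalgebra K (Module.End K V))) z hz
  have main : ∀ m : ℕ, m < finrank K U →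
      ∃ P B' : List (Hd G k), WReach B (B' ++ P) ∧ (∀ h ∈ B', Good h) ∧ Al R (SpQ.E B') = ⊤ ∧
        P.length ≤ m ∧ B'.length + P.length = B.length ∧
        (Tw2_Sp ρ z P = ⊤ ∨ m + 1 ≤ finrank K (Tw2_Sp ρ z P)) := by
    intro m
    induction m with
    | zero =>
      intro _
      refine ⟨[], B, by simpa using WReach.refl B, hgood, hfull, by simp, by simp, Or.inr ?_⟩
      have h1 : Tw2_Sp ρ z ([] : List (Hd G k)) ≠ ⊥ := by
        intro h
        have hz := Tw2_self ρ z ([] : List (Hd G k))
        rw [h] at hz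
        have h2 := hst0 (SpQ.E B) ⊥ hfull hz (fun x _ s hs => by
          rw [Submodule.mem_bot] at hs ⊢
          rw [hs, map_zero])
        have h3 : finrank K (⊥ : Submodule K U) = finrank K (⊤ : Submodule K U) := by rw [h2]
        rw [finrank_bot, finrank_top] at h3
        exact hD h3.symm
      have h2 := Submodule.one_le_finrank_iff.2 h1
      simpa using h2
    | succ m ih =>
      intro hm
      obtain ⟨P, B', hr, hBg, hBf, hPlen, hBlen', hor⟩ := ih (by omega)
      by_cases htop : Tw2_Sp ρ z P = ⊤
      · exact ⟨P, B', hr, hBg, hBf, by omega, hBlen', Or.inl htop⟩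
      have hdim : m + 1 ≤ finrank K (Tw2_Sp ρ z P) := hor.resolve_left htop
      by_cases hst : ∃ (B₁ : List (Hd G k)) (p : Hd G k), WReach B' (B₁ ++ [p]) ∧
          (∀ h ∈ B₁ ++ [p], Good h) ∧ Al R (SpQ.E B₁) = ⊤ ∧
          Tw2_Sp ρ z ([p] ++ P) ≠ Tw2_Sp ρ z P
      · obtain ⟨B₁, p, h1, hg1, h2, h3⟩ := hst
        have h4 : Tw2_Sp ρ z P ≤ Tw2_Sp ρ z ([p] ++ P) := Tw2_mono (WExt.drop_left [p] P)
        have hl1 := h1.length_eq
        rw [List.length_append, List.length_singleton] at hl1
        refine ⟨[p] ++ P, B₁, ?_, fun h hh => hg1 h (by simp [hh]), h2, ?_, ?_, Or.inr ?_⟩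
        · refine hr.trans ?_
          have h5 := h1.right P
          rwa [List.append_assoc] at h5
        · rw [List.length_append, List.length_singleton]
          omega
        · rw [List.length_append, List.length_singleton]
          omega
        · have h5 := Submodule.finrank_lt_finrank_of_lt (lt_of_le_of_ne h4 (Ne.symm h3))
          omega
      · exfalso
        push Not at hst
        apply htop
        have key : SpQ.E B' ≤ stb ρ (Tw2_Sp ρ z P) := by
          refine hA G k (fun H => Al R H = ⊤) B' (stb ρ (Tw2_Sp ρ z P)) hBg ?_ ?_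
          · intro B₃ hw3 hg3
            have hE3 : SpQ.E B₃ = SpQ.E B' := hw3.E_eq
            have hlen3 : B₃.length = B'.length := hw3.length_eq
            exact hN K V G k R B₃ (by rw [hE3]; exact hBf) (by omega)
          · intro B₃ p hw3 hg3 hfull3
            have h3 := hst B₃ p hw3 hg3 hfull3
            have hstab : ∀ y : G, y ∈ SpQ.fc [p] (-1) → y ∈ stb ρ (Tw2_Sp ρ z P) := by
              intro y hyf s hs
              rw [← h3]
              unfold Tw2_Sp at hs
              refine Submodule.span_induction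
                (p := fun s _ => ρ y s ∈ Tw2_Sp ρ z ([p] ++ P)) ?_ ?_ ?_ ?_ hs
              · rintro u (rfl | ⟨x, hxf, rfl⟩)
                · exact Submodule.subset_span (Or.inr ⟨y,
                    SpQ.fc_mono (WExt.drop_right [p] P) _ hyf, rfl⟩)
                · show ρ y (ρ x z) ∈ _
                  rw [← Module.End.mul_apply, ← map_mul]
                  have h4 := SpQ.fc_mul hyf hxf
                  have e : (-1 : ZMod k) + -1 + 1 = -1 := by ring
                  rw [e] at h4
                  exact Submodule.subset_span (Or.inr ⟨y * x, h4, rfl⟩)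
              · rw [map_zero]
                exact Submodule.zero_mem _
              · intro a b _ _ ha hb
                rw [map_add]
                exact Submodule.add_mem _ ha hb
              · intro c a _ ha
                rw [map_smul]
                exact Submodule.smul_mem _ c ha
            have hgp : Good p := hg3 p (by simp)
            obtain ⟨⟨x, y⟩, o⟩ := p
            obtain rfl : o = (-1, 1) := hgp
            rw [SpQ.E_singleton_le]
            refine ⟨hstab x ⟨y, 1, WExt.refl _⟩, ?_⟩
            have h4 : y⁻¹ ∈ stb ρ (Tw2_Sp ρ z P) := hstab _ ⟨_, _, WExt.rot x y (-1) 1⟩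
            exact inv_mem_iff.1 h4
        exact hst0 (SpQ.E B') _ hBf (Tw2_self ρ z P) key
  obtain ⟨P, B', hr, hBg, hBf, -, -, hor⟩ := main (finrank K U - 1) (by omega)
  have htop : Tw2_Sp ρ z P = ⊤ := by
    rcases hor with h | h
    · exact h
    · exact Submodule.eq_top_of_finrank_eq (le_antisymm (Submodule.finrank_le _) (by omega))
  have hSL : ∀ x ∈ SpQ.fc P (-1), x ∈ SL R B := fun x hx =>
    ⟨[], B', P, by simpa using hr, hBg, hBf, hx⟩
  intro u
  have hu : u ∈ Tw2_Sp ρ z P := by
    rw [htop]
    exact Submodule.mem_top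
  unfold Tw2_Sp at hu
  refine Submodule.span_induction
    (p := fun u _ => ∃ f ∈ Fsp R (SL R B), Φ f z = u) ?_ ?_ ?_ ?_ hu
  · rintro u (rfl | ⟨x, hxf, rfl⟩)
    · refine ⟨1, Submodule.subset_span (Set.mem_insert _ _), ?_⟩
      rw [map_one]
      rfl
    · exact ⟨R x, Submodule.subset_span (Or.inr ⟨x, hSL x hxf, rfl⟩), rfl⟩
  · exact ⟨0, Submodule.zero_mem _, by rw [map_zero]; rfl⟩
  · rintro a b _ _ ⟨f, hf, rfl⟩ ⟨g, hg, rfl⟩
    exact ⟨f + g, Submodule.add_mem _ hf hg, by rw [map_add]; rfl⟩
  · rintro c a _ ⟨f, hf, rfl⟩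
    exact ⟨c • f, Submodule.smul_mem _ c hf, by rw [map_smul]; rfl⟩

private theorem Tw2_ext {n : ℕ} (v u : Fin n → V) (hv : LinearIndependent K v) :
    ∃ f : Module.End K V, ∀ i, f (v i) = u i := by
  obtain ⟨g, hg⟩ := LinearMap.exists_extend
    ((Finsupp.linearCombination K u) ∘ₗ (hv.repr : Submodule.span K (Set.range v) →ₗ[K] _))
  refine ⟨g, fun i => ?_⟩
  have h1 : g ((Submodule.span K (Set.range v)).subtype ⟨v i, Submodule.subset_span ⟨i, rfl⟩⟩)
      = ((Finsupp.linearCombination K u) ∘ₗ (hv.repr : Submodule.span K (Set.range v) →ₗ[K] _))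
        ⟨v i, Submodule.subset_span ⟨i, rfl⟩⟩ := by
    rw [← hg]
    rfl
  have h2 : hv.repr ⟨v i, Submodule.subset_span ⟨i, rfl⟩⟩ = Finsupp.single i 1 :=
    hv.repr_eq_single i _ rfl
  rw [LinearMap.comp_apply, h2] at h1
  simpa using h1

/-- two copies of the action -/
private def Tw2_dbl (K V : Type) [Field K] [AddCommGroup V] [Module K V] :
    Module.End K V →ₐ[K] Module.End K (V × V) where
  toFun f := LinearMap.prodMap f f
  map_one' := by
    ext <;> simp
  map_mul' f g := by
    ext <;> simp
  map_zero' := by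
    ext <;> simp
  map_add' f g := by
    ext <;> simp
  commutes' c := by
    ext <;> simp [Module.algebraMap_end_apply]

end

/-- **TW2.** -/
theorem thm_Tw2 (hA : LGC.St_All) (hN : St_Nog) : St_Tw2 := by
  intro K V G _ _ _ _ _ _ _ k R B hgood hfull hlen
  refine ⟨fun v hv u => ?_, fun v₁ v₂ hv u₁ u₂ => ?_⟩
  · refine Tw2_main hA hN R (AlgHom.id K (Module.End K V)) (by omega) v (fun u => ?_) B hgood hfull
      hlen u
    obtain ⟨f, hf⟩ := Tw2_ext (K := K) (fun _ : Fin 1 => v) (fun _ => u)
      (LinearIndependent.of_subsingleton 0 hv)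
    exact ⟨f, hf 0⟩
  · obtain ⟨f, hf, hfz⟩ := Tw2_main hA hN R (Tw2_dbl K V) (by rw [finrank_prod]; omega) (v₁, v₂)
      (fun u => by
        obtain ⟨f, hf⟩ := Tw2_ext ![v₁, v₂] ![u.1, u.2] hv
        refine ⟨f, ?_⟩
        have e1 := hf 0
        have e2 := hf 1
        exact Prod.ext e1 e2) B hgood hfull hlen (u₁, u₂)
    refine ⟨f, hf, ?_, ?_⟩
    · exact congrArg Prod.fst hfz
    · exact congrArg Prod.snd hfz

end Pool.Agent.LGN
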