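import Pool.Agent.LGN.St
import Pool.Agent.LGC.Vek

/-!
# Near-linear range: the main step for two representations

helper66, for helper21 (MP_0707f5_ag).  Only two full blocks are used: `L(P)` is the span of
`(1, 1)` and of the pairs `(R₁ x, R₂ x)`, `x ∈ fc P (-1)`; if `p` is a spare killed handle then
`L([p] ++ P₁) = L(P₁)` by `St_Gra` for `L' = L(P₂)`, so the letters of `p` stabilise `L(P₁)`.
-/

set_option autoImplicit false

namespace Pool.Agent.LGN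

open Module
open SpQ (Hd WStep WReach WExt Good bd cj1)
open LGC (It GI hl IReach Kl cls)

section
variable {K V Γ : Type} [Field K] [AddCommGroup V] [Module K V] [Group Γ] {k : ℕ}

/-- the span of `(1, 1)` and the pairs of images of the letters of `P` in `N` -/
def Two_L (N : Subgroup Γ) (R₁ R₂ : N →* Module.End K V) (P : List (Hd Γ k)) :
    Submodule K (Module.End K V × Module.End K V) :=
  Submodule.span K (insert 1 ((fun x : N => (R₁ x, R₂ x)) '' {x : N | (x : Γ) ∈ SpQ.fc P (-1)}))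

variable {N : Subgroup Γ} {R₁ R₂ : N →* Module.End K V}

theorem Two_one (P : List (Hd Γ k)) : (1 : Module.End K V × Module.End K V) ∈ Two_L N R₁ R₂ P :=
  Submodule.subset_span (Set.mem_insert _ _)

theorem Two_mem {P : List (Hd Γ k)} {x : N} (hx : (x : Γ) ∈ SpQ.fc P (-1)) :
    (R₁ x, R₂ x) ∈ Two_L N R₁ R₂ P :=
  Submodule.subset_span (Set.mem_insert_of_mem _ ⟨x, hx, rfl⟩)

theorem Two_mono {P Q : List (Hd Γ k)} (h : WExt P Q) :
    Two_L N R₁ R₂ Q ≤ Two_L N R₁ R₂ P := by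
  unfold Two_L
  refine Submodule.span_mono (Set.insert_subset_insert (Set.image_mono ?_))
  intro x hx
  exact SpQ.fc_mono h _ hx

theorem Two_mul {P Q : List (Hd Γ k)} {a b : Module.End K V × Module.End K V}
    (ha : a ∈ Two_L N R₁ R₂ P) (hb : b ∈ Two_L N R₁ R₂ Q) : a * b ∈ Two_L N R₁ R₂ (P ++ Q) := by
  have h1 : Two_L N R₁ R₂ P * Two_L N R₁ R₂ Q ≤ Two_L N R₁ R₂ (P ++ Q) := by
    conv_lhs => unfold Two_L
    rw [Submodule.span_mul_span, Submodule.span_le]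
    rintro _ ⟨s, hs, t, ht, rfl⟩
    rcases hs with rfl | ⟨x, hx, rfl⟩
    · rcases ht with rfl | ⟨y, hy, rfl⟩
      · show (1 : Module.End K V × Module.End K V) * 1 ∈ _
        rw [one_mul]
        exact Two_one _
      · show (1 : Module.End K V × Module.End K V) * (R₁ y, R₂ y) ∈ _
        rw [one_mul]
        exact Two_mem (SpQ.fc_mono (WExt.drop_left P Q) _ hy)
    · rcases ht with rfl | ⟨y, hy, rfl⟩
      · show (R₁ x, R₂ x) * (1 : Module.End K V × Module.End K V) ∈ _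
        rw [mul_one]
        exact Two_mem (SpQ.fc_mono (WExt.drop_right P Q) _ hx)
      · show (R₁ x, R₂ x) * (R₁ y, R₂ y) ∈ _
        have e : (R₁ x, R₂ x) * (R₁ y, R₂ y) = (R₁ (x * y), R₂ (x * y)) := by
          rw [map_mul, map_mul]
          rfl
        rw [e]
        refine Two_mem ?_
        have h4 := SpQ.fc_mul hx hy
        have e2 : (-1 : ZMod k) + -1 + 1 = -1 := by ring
        rw [e2] at h4
        exact h4
  exact h1 (Submodule.mul_mem_mul ha hb)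

theorem Two_fst {P : List (Hd Γ k)} (h : Fsp R₁ {x : N | (x : Γ) ∈ SpQ.fc P (-1)} = ⊤)
    (b : Module.End K V) : ∃ l ∈ Two_L N R₁ R₂ P, l.1 = b := by
  have h1 : (Two_L N R₁ R₂ P).map (LinearMap.fst K (Module.End K V) (Module.End K V)) = ⊤ := by
    rw [← h]
    unfold Two_L Fsp
    rw [Submodule.map_span, Set.image_insert_eq, Set.image_image]
    rfl
  have h2 : b ∈ (Two_L N R₁ R₂ P).map (LinearMap.fst K (Module.End K V) (Module.End K V)) := by
    rw [h1]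
    trivial
  obtain ⟨l, hl, hb⟩ := h2
  exact ⟨l, hl, hb⟩

theorem Two_snd {P : List (Hd Γ k)} (h : Fsp R₂ {x : N | (x : Γ) ∈ SpQ.fc P (-1)} = ⊤)
    (b : Module.End K V) : ∃ l ∈ Two_L N R₁ R₂ P, l.2 = b := by
  have h1 : (Two_L N R₁ R₂ P).map (LinearMap.snd K (Module.End K V) (Module.End K V)) = ⊤ := by
    rw [← h]
    unfold Two_L Fsp
    rw [Submodule.map_span, Set.image_insert_eq, Set.image_image]
    rfl
  have h2 : b ∈ (Two_L N R₁ R₂ P).map (LinearMap.snd K (Module.End K V) (Module.End K V)) := by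
    rw [h1]
    trivial
  obtain ⟨l, hl, hb⟩ := h2
  exact ⟨l, hl, hb⟩

/-- The equality of the traces, from a killed handle with weight zero in the context. -/
theorem Two_tr {X₀ : List (It Γ k)} {B₀ : List (Hd Γ k)}
    (hT : ∀ (X' : List (It Γ k)) (P : List (Hd Γ k)), IReach (X₀ ++ hl B₀) (X' ++ hl P) →
      (∀ h ∈ P, Kl N h) → ∀ (x : Γ) (hx : x ∈ N), x ∈ SpQ.fc P 0 →
      LinearMap.trace K V (R₁ ⟨x, hx⟩) = LinearMap.trace K V (R₂ ⟨x, hx⟩))
    {h₁ : Hd Γ k} (hk₁ : Kl N h₁) {X : List (It Γ k)} {Q : List (Hd Γ k)}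
    (hcl : X.map (cls N) = (X₀ ++ [Sum.inl h₁]).map (cls N))
    (hr : IReach (X₀ ++ hl B₀) (X ++ hl Q)) (hQ : ∀ h ∈ Q, Kl N h) :
    ∃ g : N, ∀ l ∈ Two_L N R₁ R₂ Q,
      LinearMap.trace K V (R₁ g * l.1) = LinearMap.trace K V (R₂ g * l.2) := by
  rw [List.map_append] at hcl
  obtain ⟨X₁, s, rfl, -, hs⟩ := List.map_eq_append_iff.1 hcl
  obtain ⟨i, s', rfl, hi, hs'⟩ := List.map_eq_cons_iff.1 hs
  obtain rfl : s' = [] := List.map_eq_nil_iff.1 hs'
  obtain ⟨h', rfl, hk'⟩ := LGC.cls_killed hk₁ hi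
  obtain ⟨p, hp, hz⟩ := SpQ.exists_zero h'
  have hkp : Kl N p := by
    rw [LGC.Kl_iff, hp.E_eq, ← LGC.Kl_iff]
    exact hk'
  have hreach2 : IReach (X₀ ++ hl B₀) (X₁ ++ hl (p :: Q)) := by
    refine hr.trans ?_
    have h1 := IReach.of_wreach' hp X₁ (hl Q)
    have e1 : ∀ x : Hd Γ k, X₁ ++ (hl [x] ++ hl Q) = X₁ ++ hl (x :: Q) := by
      intro x
      rw [← LGC.hl_append]
      rfl
    rw [e1, e1] at h1
    have e2 : X₁ ++ [Sum.inl h'] ++ hl Q = X₁ ++ hl (h' :: Q) := by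
      rw [LGC.hl_cons, List.append_assoc]
      rfl
    rw [e2]
    exact h1
  have hkP : ∀ h ∈ p :: Q, Kl N h := by
    intro h hh
    rcases List.mem_cons.1 hh with rfl | hh
    · exact hkp
    · exact hQ h hh
  obtain ⟨⟨γ, δ⟩, ⟨z, q⟩⟩ := p
  dsimp only at hz
  subst hz
  have hγN : γ ∈ N := hkp.1
  have hγ : γ ∈ SpQ.fc [((γ, δ), ((0 : ZMod k), q))] 0 := ⟨δ, q, WExt.refl _⟩
  refine ⟨⟨γ, hγN⟩, fun l hl => ?_⟩
  unfold Two_L at hl
  induction hl using Submodule.span_induction with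
  | mem l hl =>
    rcases hl with rfl | ⟨x, hx, rfl⟩
    · have h1 : γ ∈ SpQ.fc (((γ, δ), ((0 : ZMod k), q)) :: Q) 0 :=
        SpQ.fc_mono (WExt.drop_right [((γ, δ), ((0 : ZMod k), q))] Q) _ hγ
      have h2 := hT X₁ _ hreach2 hkP γ hγN h1
      rw [Prod.fst_one, Prod.snd_one, mul_one, mul_one]
      exact h2
    · have h1 := SpQ.fc_mul hγ hx
      have e5 : (0 : ZMod k) + -1 + 1 = 0 := by ring
      rw [e5] at h1
      have h2 := hT X₁ _ hreach2 hkP (γ * x) (N.mul_mem hγN x.2) h1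
      have e6 : (⟨γ * x, N.mul_mem hγN x.2⟩ : N) = ⟨γ, hγN⟩ * x := rfl
      rw [e6, map_mul R₁, map_mul R₂] at h2
      exact h2
  | zero =>
    rw [Prod.fst_zero, Prod.snd_zero, mul_zero, mul_zero, map_zero]
  | add a b _ _ ha hb =>
    rw [Prod.fst_add, Prod.snd_add, mul_add, mul_add, map_add, map_add, ha, hb]
  | smul c a _ ha =>
    rw [Prod.smul_fst, Prod.smul_snd, mul_smul_comm, mul_smul_comm, map_smul, map_smul, ha]

/-- the representation on pairs of endomorphisms by multiplication from the left -/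
def Two_R (R₁ R₂ : N →* Module.End K V) :
    N →* Module.End K (Module.End K V × Module.End K V) :=
  (Algebra.lmul K (Module.End K V × Module.End K V) :
    (Module.End K V × Module.End K V) →* Module.End K (Module.End K V × Module.End K V)).comp
    (R₁.prod R₂)

theorem Two_R_apply (x : N) (s : Module.End K V × Module.End K V) :
    Two_R R₁ R₂ x s = (R₁ x, R₂ x) * s := rfl

end

theorem thm_Two (hG : St_Gr3) (hS : St_Spx) (hR : St_Gra) (hX : St_Alx) : St_Two := by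
  intro K V Γ _ _ _ _ _ _ _ k N _ R₁ R₂ X₀ B₀ hkB₀ htop hA₁ hA₂ hlen hT
  have hr0 : 1 ≤ finrank K V := Module.finrank_pos
  set r := finrank K V with hr
  set κ := 12 * r + 2 * (r * (9 * Nat.log 2 r + 1)) with hκ
  have hlen' : 2 * κ + 8 * r + 1 ≤ B₀.length := by
    refine le_trans ?_ hlen
    rw [hκ]
    nlinarith
  -- good handles
  obtain ⟨h₀, G₀, rfl⟩ : ∃ h₀ G₀, B₀ = h₀ :: G₀ := by
    cases B₀ with
    | nil =>
      rw [List.length_nil] at hlen'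
      omega
    | cons a b => exact ⟨a, b, rfl⟩
  obtain ⟨h₁, B, hrB, hg⟩ := SpQ.exists_good h₀ G₀
  have hE : SpQ.E (h₁ :: B) = SpQ.E (h₀ :: G₀) := hrB.E_eq
  have hkB : ∀ h ∈ h₁ :: B, Kl N h := by
    rw [LGC.Kl_list, hE, ← LGC.Kl_list]
    exact hkB₀
  have hlen2 : B.length = G₀.length := by
    have h1 := hrB.length_eq
    rw [List.length_cons, List.length_cons] at h1
    omega
  have e3 : (X₀ ++ [Sum.inl h₁]) ++ hl B = X₀ ++ hl (h₁ :: B) := by
    rw [LGC.hl_cons, List.append_assoc]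
    rfl
  have hreach : IReach (X₀ ++ hl (h₀ :: G₀)) ((X₀ ++ [Sum.inl h₁]) ++ hl B) := by
    rw [e3]
    exact (IReach.of_wreach hrB).left X₀
  have hGI : GI ((X₀ ++ [Sum.inl h₁]) ++ hl B) = ⊤ := by
    rw [hreach.GI_eq, htop]
  rw [List.length_cons] at hlen'
  have hk₁ : Kl N h₁ := hkB h₁ List.mem_cons_self
  -- the two blocks
  obtain ⟨X₁, B₁, P₂, hr1, hcl1, hPl2, hBl1, hg1, hkl1, hf12, hf22, hal1⟩ :=
    hG K V Γ k N R₁ R₂ (X₀ ++ [Sum.inl h₁]) B κ hg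
      (fun h hh => hkB h (List.mem_cons_of_mem _ hh)) hA₁ hA₂
      (by rw [hGI, Subgroup.top_subgroupOf]) (by omega) (by omega)
  obtain ⟨X₂, B₂, P₁, hr2, hcl2, hPl1, hBl2, hg2, hkl2, hf11, hf21, hal2⟩ :=
    hG K V Γ k N R₁ R₂ X₁ B₁ κ (fun h hh => hg1 h (List.mem_append_left _ hh))
      (fun h hh => hkl1 h (List.mem_append_left _ hh)) hA₁ hA₂ hal1 (by omega) (by omega)
  have hreach2 : IReach (X₀ ++ hl (h₀ :: G₀)) (X₂ ++ hl (B₂ ++ (P₁ ++ P₂))) := by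
    refine (hreach.trans hr1).trans ?_
    have h1 := hr2.right (hl P₂)
    have e1 : X₁ ++ hl B₁ ++ hl P₂ = X₁ ++ hl (B₁ ++ P₂) := by
      rw [LGC.hl_append, List.append_assoc]
    have e2 : X₂ ++ hl (B₂ ++ P₁) ++ hl P₂ = X₂ ++ hl (B₂ ++ (P₁ ++ P₂)) := by
      rw [List.append_assoc, ← LGC.hl_append, List.append_assoc]
    rw [e1, e2] at h1
    exact h1
  have hclX : X₂.map (cls N) = (X₀ ++ [Sum.inl h₁]).map (cls N) := hcl2.trans hcl1
  have hgP₂ : ∀ h ∈ P₂, Good h := fun h hh => hg1 h (List.mem_append_right _ hh)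
  have hkP₂ : ∀ h ∈ P₂, Kl N h := fun h hh => hkl1 h (List.mem_append_right _ hh)
  have hgP₁ : ∀ h ∈ P₁, Good h := fun h hh => hg2 h (List.mem_append_right _ hh)
  have hkP₁ : ∀ h ∈ P₁, Kl N h := fun h hh => hkl2 h (List.mem_append_right _ hh)
  have hgB₂ : ∀ h ∈ B₂, Good h := fun h hh => hg2 h (List.mem_append_left _ hh)
  have hkB₂ : ∀ h ∈ B₂, Kl N h := fun h hh => hkl2 h (List.mem_append_left _ hh)
  -- the blocks span
  have s11 := hS K V Γ k N R₁ P₁ hgP₁ hkP₁ hf11 (by rw [hPl1])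
  have s12 := hS K V Γ k N R₁ P₂ hgP₂ hkP₂ hf12 (by rw [hPl2])
  have s22 := hS K V Γ k N R₂ P₂ hgP₂ hkP₂ hf22 (by rw [hPl2])
  -- the stabiliser
  set 𝓛 := Two_L N R₁ R₂ P₁ with h𝓛
  have hgen : (GI (X₂ ++ hl B₂)).subgroupOf N ≤ LGP.stb (Two_R R₁ R₂) 𝓛 := by
    refine hX K V Γ k N R₁ R₂ X₂ B₂ _ hgB₂ hkB₂ hA₁ hA₂ hal2 (by omega) ?_
    intro X₃ B₃ p hr3 hcl3 hBl3 hg3 hk3 hal3
    have hreach3 : IReach (X₀ ++ hl (h₀ :: G₀)) (X₃ ++ hl (B₃ ++ ([p] ++ P₁ ++ P₂))) := by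
      refine hreach2.trans ?_
      have h1 := hr3.right (hl (P₁ ++ P₂))
      have e1 : X₂ ++ hl B₂ ++ hl (P₁ ++ P₂) = X₂ ++ hl (B₂ ++ (P₁ ++ P₂)) := by
        rw [List.append_assoc, ← LGC.hl_append]
      have e2 : X₃ ++ hl (B₃ ++ [p]) ++ hl (P₁ ++ P₂) = X₃ ++ hl (B₃ ++ ([p] ++ P₁ ++ P₂)) := by
        rw [List.append_assoc, ← LGC.hl_append]
        simp
      rw [e1, e2] at h1
      exact h1
    have hkQ : ∀ h ∈ B₃ ++ ([p] ++ P₁ ++ P₂), Kl N h := by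
      intro h hh
      simp only [List.mem_append] at hh
      rcases hh with hh | (hh | hh) | hh
      · exact hk3 h (List.mem_append_left _ hh)
      · exact hk3 h (List.mem_append_right _ hh)
      · exact hkP₁ h hh
      · exact hkP₂ h hh
    obtain ⟨g, hgt⟩ := Two_tr (R₁ := R₁) (R₂ := R₂) hT hk₁ (hcl3.trans hclX) hreach3 hkQ
    have heq : Two_L N R₁ R₂ P₁ = Two_L N R₁ R₂ ([p] ++ P₁) := by
      refine hR K V (R₁ g) (R₂ g) ((Group.isUnit g).map R₁) ((Group.isUnit g).map R₂)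
        (Two_L N R₁ R₂ ([p] ++ P₁)) (Two_L N R₁ R₂ P₂) (Two_fst s12) (Two_snd s22) ?_
        (Two_L N R₁ R₂ P₁) (Two_mono (WExt.drop_left [p] P₁)) (Two_fst s11)
      intro l hl l' hl'
      have h1 : l * l' ∈ Two_L N R₁ R₂ (B₃ ++ ([p] ++ P₁ ++ P₂)) :=
        Two_mono (WExt.drop_left B₃ _) (Two_mul hl hl')
      exact hgt _ h1
    have hstab : ∀ (z : Γ) (hz : z ∈ N), z ∈ SpQ.fc [p] (-1) →
        (⟨z, hz⟩ : N) ∈ LGP.stb (Two_R R₁ R₂) 𝓛 := by
      intro z hz hzf s hs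
      rw [Two_R_apply, h𝓛, heq]
      exact Two_mul (Two_mem (x := (⟨z, hz⟩ : N)) hzf) hs
    have hgp : Good p := hg3 p (by simp)
    have hkp : Kl N p := hk3 p (by simp)
    obtain ⟨⟨x, y⟩, o⟩ := p
    obtain rfl : o = (-1, 1) := hgp
    have hxN : x ∈ N := hkp.1
    have hyN : y ∈ N := hkp.2
    have h5 : SpQ.E [((x, y), ((-1 : ZMod k), (1 : ZMod k)))] ≤
        (LGP.stb (Two_R R₁ R₂) 𝓛).map N.subtype := by
      rw [SpQ.E_singleton_le]
      refine ⟨⟨⟨x, hxN⟩, hstab x hxN ⟨y, 1, WExt.refl _⟩, rfl⟩, ?_⟩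
      have h4 : (⟨y⁻¹, N.inv_mem hyN⟩ : N) ∈ LGP.stb (Two_R R₁ R₂) 𝓛 :=
        hstab _ _ ⟨_, _, WExt.rot x y (-1) 1⟩
      exact ⟨⟨y, hyN⟩, inv_mem_iff.1 h4, rfl⟩
    intro z hz
    obtain ⟨z', hz', hzz⟩ := h5 (Subgroup.mem_subgroupOf.1 hz)
    have e7 : z' = z := Subtype.ext hzz
    rw [← e7]
    exact hz'
  -- the algebra stabilises
  have halg : ∀ a ∈ Al2 R₁ R₂ (⊤ : Subgroup N), ∀ s ∈ 𝓛, a * s ∈ 𝓛 := by
    rw [← hal2]
    intro a ha
    unfold Al2 at ha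
    induction ha using Algebra.adjoin_induction with
    | mem a ha =>
      obtain ⟨x, hx, rfl⟩ := ha
      intro s hs
      exact hgen hx s hs
    | algebraMap c =>
      intro s hs
      rw [← Algebra.smul_def]
      exact Submodule.smul_mem _ c hs
    | add a b _ _ ha hb =>
      intro s hs
      rw [add_mul]
      exact Submodule.add_mem _ (ha s hs) (hb s hs)
    | mul a b _ _ ha hb =>
      intro s hs
      rw [mul_assoc]
      exact ha _ (hb s hs)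
  have hall : ∀ x : N, (R₁ x, R₂ x) ∈ 𝓛 := by
    intro x
    have h1 := halg (R₁ x, R₂ x) (Algebra.subset_adjoin ⟨x, Subgroup.mem_top _, rfl⟩) 1
      (Two_one P₁)
    rwa [mul_one] at h1
  -- the end
  have hkQ2 : ∀ h ∈ B₂ ++ (P₁ ++ P₂), Kl N h := by
    intro h hh
    simp only [List.mem_append] at hh
    rcases hh with hh | hh | hh
    · exact hkB₂ h hh
    · exact hkP₁ h hh
    · exact hkP₂ h hh
  obtain ⟨g, hgt⟩ := Two_tr (R₁ := R₁) (R₂ := R₂) hT hk₁ hclX hreach2 hkQ2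
  intro x
  have h1 : (R₁ (g⁻¹ * x), R₂ (g⁻¹ * x)) ∈ Two_L N R₁ R₂ (B₂ ++ (P₁ ++ P₂)) :=
    Two_mono ((WExt.drop_left B₂ _).trans (WExt.drop_right P₁ P₂)) (hall _)
  have h2 := hgt _ h1
  dsimp only at h2
  rw [← map_mul, ← map_mul, mul_inv_cancel_left] at h2
  exact h2

end Pool.Agent.LGN
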